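import Pool.Agent.R743.PP.Stm

/-!
# PP-ABS: the computation in an abstract ring
-/

set_option autoImplicit false

namespace Pool.Agent.R743.PP.Abs

section
variable {B : Type} [CommRing B]

/-- membership in the ideal `(τ ^ i, ξ ^ j)` -/
def Mem (τ ξ : B) (i j : ℕ) (h : B) : Prop := ∃ A C : B, h = τ ^ i * A + ξ ^ j * C

variable {τ ξ : B}

theorem Mem.add {i j : ℕ} {h h' : B} (H : Mem τ ξ i j h) (H' : Mem τ ξ i j h') : Mem τ ξ i j (h + h') := by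
  obtain ⟨A, C, rfl⟩ := H
  obtain ⟨A', C', rfl⟩ := H'
  exact ⟨A + A', C + C', by ring⟩

theorem Mem.sub {i j : ℕ} {h h' : B} (H : Mem τ ξ i j h) (H' : Mem τ ξ i j h') : Mem τ ξ i j (h - h') := by
  obtain ⟨A, C, rfl⟩ := H
  obtain ⟨A', C', rfl⟩ := H'
  exact ⟨A - A', C - C', by ring⟩

theorem Mem.mul {i j : ℕ} {h : B} (H : Mem τ ξ i j h) (r : B) : Mem τ ξ i j (r * h) := by
  obtain ⟨A, C, rfl⟩ := H
  exact ⟨r * A, r * C, by ring⟩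

theorem Mem.mono {i j i' j' : ℕ} {h : B} (H : Mem τ ξ i j h) (hi : i' ≤ i) (hj : j' ≤ j) : Mem τ ξ i' j' h := by
  obtain ⟨A, C, rfl⟩ := H
  obtain ⟨k, rfl⟩ := Nat.exists_eq_add_of_le hi
  obtain ⟨l, rfl⟩ := Nat.exists_eq_add_of_le hj
  exact ⟨τ ^ k * A, ξ ^ l * C, by ring⟩

theorem Mem.left {i j : ℕ} (A : B) : Mem τ ξ i j (τ ^ i * A) := ⟨A, 0, by ring⟩

theorem Mem.right {i j : ℕ} (A : B) : Mem τ ξ i j (ξ ^ j * A) := ⟨0, A, by ring⟩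

theorem Mem.sq {i j : ℕ} {h : B} (h2 : τ ^ 16 = 2) (hi : i ≤ 8) (H : Mem τ ξ i j h) :
    Mem τ ξ (2 * i) (2 * j) (h ^ 2) := by
  obtain ⟨A, C, rfl⟩ := H
  obtain ⟨k, hk⟩ := Nat.exists_eq_add_of_le hi
  have h2' : (2 : B) = τ ^ (2 * i) * τ ^ (2 * k) := by
    rw [← h2, ← pow_add]
    congr 1
    omega
  refine ⟨A ^ 2 + τ ^ (2 * k) * (τ ^ i * ξ ^ j * A * C), C ^ 2, ?_⟩
  have : (τ ^ i * A + ξ ^ j * C) ^ 2 = τ ^ (2 * i) * A ^ 2 + 2 * (τ ^ i * ξ ^ j * A * C) + ξ ^ (2 * j) * C ^ 2 := by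
    ring
  rw [this, h2']
  ring

variable [IsDomain B] [IsIntegrallyClosed B]

theorem sqdiv {a h e : B} (ha : a ≠ 0) (H : h ^ 2 = a ^ 2 * e) : ∃ h', h = a * h' ∧ h' ^ 2 = e := by
  have h1 : a ^ 2 ∣ h ^ 2 := ⟨e, H⟩
  rw [IsIntegrallyClosed.pow_dvd_pow_iff (by norm_num)] at h1
  obtain ⟨h', rfl⟩ := h1
  refine ⟨h', rfl, ?_⟩
  have : a ^ 2 * h' ^ 2 = a ^ 2 * e := by rw [← H]; ring
  exact mul_left_cancel₀ (pow_ne_zero 2 ha) this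

theorem Mem.root {i j : ℕ} {h : B} (h2 : τ ^ 16 = 2) (h20 : (2 : B) ≠ 0) (hsq : ∀ a : B, ∃ r : B, r ^ 2 = a)
    (hi : i ≤ 8) (H : Mem τ ξ (2 * i) (2 * j) (h ^ 2)) : Mem τ ξ i j h := by
  obtain ⟨A, C, hh⟩ := H
  obtain ⟨α, rfl⟩ := hsq A
  obtain ⟨γ, rfl⟩ := hsq C
  have hτ : τ ≠ 0 := by
    rintro rfl
    apply h20
    rw [← h2]
    simp
  have key : (h - τ ^ i * α - ξ ^ j * γ) ^ 2 =
      (τ ^ 8) ^ 2 * ((τ ^ i * α + ξ ^ j * γ) * (τ ^ i * α + ξ ^ j * γ - h) - τ ^ i * α * (ξ ^ j * γ)) := by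
    have : (τ ^ 8) ^ 2 = 2 := by rw [← h2]; ring
    rw [this]
    have e : (h - τ ^ i * α - ξ ^ j * γ) ^ 2 = h ^ 2 - 2 * h * (τ ^ i * α + ξ ^ j * γ) + (τ ^ i * α + ξ ^ j * γ) ^ 2 := by
      ring
    rw [e, hh]
    ring
  obtain ⟨δ, hδ, -⟩ := sqdiv (pow_ne_zero 8 hτ) key
  obtain ⟨k, hk⟩ := Nat.exists_eq_add_of_le hi
  refine ⟨α + τ ^ k * δ, γ, ?_⟩
  have : τ ^ 8 = τ ^ i * τ ^ k := by rw [← pow_add, hk]
  rw [this] at hδ
  linear_combination hδ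

/-- regular sequence with roots -/
theorem reg1 {x : B} (h2 : τ ^ 16 = 2) (hx : ξ ^ 4 = x) (hx0 : x ≠ 0)
    (hreg : ∀ (N : ℕ) (A C : B), 2 ^ N * A = x ^ N * C → x ^ N ∣ A) {i j : ℕ} {A C : B}
    (H : τ ^ i * A = ξ ^ j * C) : ∃ D, A = ξ ^ j * D := by
  have hξ : ξ ≠ 0 := by
    rintro rfl
    apply hx0
    rw [← hx]
    simp
  obtain ⟨a, ha⟩ : ∃ a, 16 * (i + j) = i + a := ⟨15 * i + 16 * j, by ring⟩
  obtain ⟨c, hc⟩ : ∃ c, 4 * (i + j) = j + c := ⟨4 * i + 3 * j, by ring⟩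
  have e2 : (2 : B) ^ (i + j) = τ ^ i * τ ^ a := by rw [← h2, ← pow_mul, ha, pow_add]
  have ex : x ^ (i + j) = ξ ^ j * ξ ^ c := by rw [← hx, ← pow_mul, hc, pow_add]
  obtain ⟨D, hD⟩ := hreg (i + j) (ξ ^ c * A) (τ ^ a * C) (by rw [e2, ex]; linear_combination τ ^ a * ξ ^ c * H)
  refine ⟨D, ?_⟩
  rw [ex] at hD
  apply mul_left_cancel₀ (pow_ne_zero c hξ)
  rw [hD]
  ring

theorem Mem.colonL {x : B} (h2 : τ ^ 16 = 2) (h20 : (2 : B) ≠ 0) (hx : ξ ^ 4 = x) (hx0 : x ≠ 0)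
    (hreg : ∀ (N : ℕ) (A C : B), 2 ^ N * A = x ^ N * C → x ^ N ∣ A) {i i' j : ℕ} {h : B}
    (H : Mem τ ξ (i + i') j (τ ^ i * h)) : Mem τ ξ i' j h := by
  obtain ⟨A, C, hh⟩ := H
  obtain ⟨D, hD⟩ := reg1 h2 hx hx0 hreg (i := i) (j := j) (A := h - τ ^ i' * A) (C := C)
    (by rw [mul_sub, hh]; ring)
  exact ⟨A, D, by linear_combination hD⟩

theorem Mem.colonR {x : B} (h2 : τ ^ 16 = 2) (h20 : (2 : B) ≠ 0) (hx : ξ ^ 4 = x) (hx0 : x ≠ 0)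
    (hreg : ∀ (N : ℕ) (A C : B), 2 ^ N * A = x ^ N * C → x ^ N ∣ A) {i j j' : ℕ} {h : B}
    (H : Mem τ ξ i (j + j') (ξ ^ j * h)) : Mem τ ξ i j' h := by
  obtain ⟨A, C, hh⟩ := H
  have hξ : ξ ≠ 0 := by
    rintro rfl
    apply hx0
    rw [← hx]
    simp
  have e : τ ^ i * A = ξ ^ j * (h - ξ ^ j' * C) := by
    rw [mul_sub, hh]
    ring
  obtain ⟨D, hD⟩ := reg1 h2 hx hx0 hreg e
  refine ⟨D, C, ?_⟩
  have : ξ ^ j * (τ ^ i * D) = ξ ^ j * (h - ξ ^ j' * C) := by rw [← e, hD]; ring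
  have := mul_left_cancel₀ (pow_ne_zero j hξ) this
  linear_combination -this

end

theorem abs : S_ABS := by
  intro B _ _ _ x h20 hx0 hq hreg h1
  have hsq : ∀ a : B, ∃ r : B, r ^ 2 = a := by
    intro a
    obtain ⟨r, hr⟩ := hq 0 (-a)
    exact ⟨r, by linear_combination hr⟩
  obtain ⟨t1, ht1⟩ := hsq 2
  obtain ⟨t2, ht2⟩ := hsq t1
  obtain ⟨t3, ht3⟩ := hsq t2
  obtain ⟨τ, hτ⟩ := hsq t3
  obtain ⟨x1, hx1⟩ := hsq x
  obtain ⟨ξ, hξ⟩ := hsq x1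
  have h2 : τ ^ 16 = 2 := by
    rw [← ht1, ← ht2, ← ht3, ← hτ]; ring
  have hx : ξ ^ 4 = x := by
    rw [← hx1, ← hξ]; ring
  have hτ0 : τ ≠ 0 := by
    rintro rfl
    apply h20
    rw [← h2]
    simp
  have h11 : ¬ Mem τ ξ 1 1 (1 : B) := by
    intro H
    have H2 := H.sq h2 (by norm_num)
    have H4 := H2.sq h2 (by norm_num)
    have H8 := H4.sq h2 (by norm_num)
    have H16 := H8.sq h2 (by norm_num)
    simp only [one_pow] at H16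
    obtain ⟨A, C, hh⟩ := H16.mono (i' := 16) (j' := 4) (by norm_num) (by norm_num)
    apply h1
    rw [Ideal.mem_span_pair]
    refine ⟨A, C, ?_⟩
    rw [hh, h2, hx]
    ring
  -- b and c
  obtain ⟨b, c, hbc, hc⟩ : ∃ b c : B, b ^ 2 + x * b + 2 * c = 0 ∧ c ^ 2 + x * b * c = 1 := by
    obtain ⟨u0, hu0⟩ := hq (x ^ 2) (-4)
    obtain ⟨b0, hb0⟩ := hq 0 u0
    obtain ⟨c0, hc0⟩ := hq (x * b0) (-1)
    have hu : u0 = - b0 ^ 2 := by linear_combination hb0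
    rw [hu] at hu0
    have hz : (2 * c0 + (b0 ^ 2 + x * b0)) * (2 * c0 - (b0 ^ 2 - x * b0)) = 0 := by
      linear_combination 4 * hc0 - hu0
    rcases mul_eq_zero.1 hz with h | h
    · exact ⟨b0, c0, by linear_combination h, by linear_combination hc0⟩
    · exact ⟨-b0, -c0, by linear_combination -h, by linear_combination hc0⟩
  obtain ⟨m, hm⟩ := hq (τ ^ 8 * x) (b ^ 2)
  obtain ⟨k, hk⟩ := hq (τ ^ 12 * ξ ^ 2) (-m)
  obtain ⟨l, hl⟩ := hq (τ ^ 14 * ξ) (-k)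
  -- the roots of f
  have hb4 : b ^ 2 * (b ^ 2 - x ^ 2) = 4 := by
    linear_combination (b ^ 2 - x * b - 2 * c) * hbc + 4 * hc
  have hs2 : (x ^ 2 - 2 * b ^ 2) ^ 2 = 16 + x ^ 4 := by
    linear_combination 4 * hb4
  have hw2 : (x + τ ^ 8 * m) ^ 2 = x ^ 2 - 2 * b ^ 2 := by
    have e : τ ^ 16 * (m ^ 2 + τ ^ 8 * x * m + b ^ 2) = 0 := by rw [hm, mul_zero]
    linear_combination e - (b ^ 2 + τ ^ 8 * x * m) * h2
  have hv2 : (ξ ^ 2 + τ ^ 4 * k) ^ 2 = x + τ ^ 8 * m := by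
    rw [← hx]
    linear_combination τ ^ 8 * hk - τ ^ 4 * ξ ^ 2 * k * h2
  have hv'2 : (ξ + τ ^ 2 * l) ^ 2 = ξ ^ 2 + τ ^ 4 * k := by
    linear_combination τ ^ 4 * hl - τ ^ 2 * ξ * l * h2
  have hm2 : m ^ 2 = ξ ^ 4 * b + 2 * c - τ ^ 8 * ξ ^ 4 * m := by
    rw [← hx] at hm hbc
    linear_combination hm - hbc
  have hk2 : k ^ 2 = m - τ ^ 12 * ξ ^ 2 * k := by linear_combination hk
  have R8 : ∀ {i j : ℕ} {h : B}, i ≤ 8 → Mem τ ξ (2 * i) (2 * j) (h ^ 2) → Mem τ ξ i j h :=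
    fun hi H => H.root h2 h20 hsq hi
  constructor
  · refine ⟨ξ ^ 2 + τ ^ 4 * k, ?_, ?_⟩
    · rw [← hs2, ← hw2, ← hv2]
      ring
    · have U1 : Mem τ ξ 8 4 (m * ξ ^ 2) := by
        apply R8 (by norm_num)
        refine ⟨c * ξ ^ 4, b - τ ^ 8 * m, ?_⟩
        rw [mul_pow, hm2, ← h2]
        ring
      have U2 : Mem τ ξ 8 4 (b * m) := by
        apply R8 (by norm_num)
        refine ⟨-(c * (ξ ^ 4 * b + 2 * c - τ ^ 8 * ξ ^ 4 * m) + c * ξ ^ 4 * b), -(b ^ 2 - τ ^ 8 * b * m), ?_⟩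
        have hb2 : b ^ 2 = - (ξ ^ 4 * b + 2 * c) := by rw [← hx] at hbc; linear_combination hbc
        rw [mul_pow, hm2]
        have : b ^ 2 * (ξ ^ 4 * b + 2 * c - τ ^ 8 * ξ ^ 4 * m) =
            -(ξ ^ 4 * b + 2 * c) * (ξ ^ 4 * b + 2 * c - τ ^ 8 * ξ ^ 4 * m) := by rw [← hb2]
        rw [this, ← h2]
        ring
      have U3 : Mem τ ξ 4 4 (m * k) := by
        apply R8 (by norm_num)
        obtain ⟨A, C, hAC⟩ := U2
        refine ⟨?_, ?_, ?_⟩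
        rotate_left
        rotate_left
        · rw [mul_pow, hm2, hk2]
          have : (ξ ^ 4 * b + 2 * c - τ ^ 8 * ξ ^ 4 * m) * (m - τ ^ 12 * ξ ^ 2 * k) =
            ξ ^ 4 * (b * m) + 2 * c * m - τ ^ 8 * (ξ ^ 4 * m * m) - τ ^ 12 * (ξ ^ 2 * k *
              (ξ ^ 4 * b + 2 * c - τ ^ 8 * ξ ^ 4 * m)) := by ring
          rw [this, hAC, ← h2]
          have : ∀ P Q : B, ξ ^ 4 * (τ ^ 8 * A + ξ ^ 4 * C) + τ ^ 16 * c * m - τ ^ 8 * P - τ ^ 12 * Q =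
            τ ^ (2 * 4) * (ξ ^ 4 * A + τ ^ 8 * c * m - P - τ ^ 4 * Q) + ξ ^ (2 * 4) * C := by intros; ring
          exact this _ _
      have U4 : Mem τ ξ 8 4 (m * (ξ ^ 2 + τ ^ 4 * k)) := by
        obtain ⟨A, C, hAC⟩ := U3
        have e : m * (ξ ^ 2 + τ ^ 4 * k) = m * ξ ^ 2 + τ ^ 4 * (m * k) := by ring
        rw [e, hAC]
        refine U1.add ⟨A, τ ^ 4 * C, by ring⟩
      obtain ⟨A, C, hAC⟩ := U4
      rw [Ideal.mem_span_pair]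
      refine ⟨A, ξ ^ 2 + τ ^ 4 * k + τ ^ 8 * C, ?_⟩
      have e : (ξ ^ 2 + τ ^ 4 * k) ^ 3 = (x + τ ^ 8 * m) * (ξ ^ 2 + τ ^ 4 * k) := by rw [← hv2]; ring
      have e' : (x + τ ^ 8 * m) * (ξ ^ 2 + τ ^ 4 * k) = x * (ξ ^ 2 + τ ^ 4 * k) + τ ^ 8 * (m * (ξ ^ 2 + τ ^ 4 * k)) := by
        ring
      rw [e, e', hAC, ← h2, ← hx]
      ring
  · refine ⟨ξ + τ ^ 2 * l, ?_, ?_⟩
    · rw [← hs2, ← hw2, ← hv2, ← hv'2]
      ring
    · intro hmem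
      rw [Ideal.mem_span_pair] at hmem
      obtain ⟨A, C, hAC⟩ := hmem
      have e : (ξ + τ ^ 2 * l) ^ 5 = (x + τ ^ 8 * m) * (ξ + τ ^ 2 * l) := by rw [← hv2, ← hv'2]; ring
      rw [e] at hAC
      have L0 : Mem τ ξ (8 + 8) 4 (τ ^ 8 * (m * (ξ + τ ^ 2 * l))) := by
        refine ⟨A, C - (ξ + τ ^ 2 * l), ?_⟩
        rw [← hx] at hAC
        rw [← h2] at hAC
        linear_combination -hAC
      have L0' := L0.colonL h2 h20 hx hx0 hreg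
      have L0'' : Mem τ ξ 8 4 ((ξ * m) * (ξ + τ ^ 2 * l)) := by
        have := L0'.mul ξ
        rwa [← mul_assoc] at this
      -- the elements e1, e2, n
      obtain ⟨b1, hb1⟩ := hsq b
      obtain ⟨b2, hb2⟩ := hsq b1
      obtain ⟨e1, he1, he1'⟩ := sqdiv (a := τ ^ 8) (h := b - ξ ^ 2 * b1) (e := - c - ξ ^ 2 * b1 * b)
        (pow_ne_zero 8 hτ0) (by
          rw [← hx] at hbc
          have : (τ ^ 8) ^ 2 = 2 := by rw [← h2]; ring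
          rw [this]
          linear_combination hbc + ξ ^ 4 * hb1)
      obtain ⟨e2, he2, he2'⟩ := sqdiv (a := τ ^ 4) (h := b1 - ξ * b2)
        (e := e1 + τ ^ 8 * (ξ ^ 2 * b1 - ξ * b1 * b2)) (pow_ne_zero 4 hτ0) (by
          have : (τ ^ 4) ^ 2 * (e1 + τ ^ 8 * (ξ ^ 2 * b1 - ξ * b1 * b2)) =
            τ ^ 8 * e1 + τ ^ 16 * (ξ ^ 2 * b1 - ξ * b1 * b2) := by ring
          rw [this, h2, ← he1]
          linear_combination hb1 + ξ ^ 2 * hb2)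
      obtain ⟨n, hn, hn'⟩ := sqdiv (a := τ ^ 4) (h := m - b)
        (e := - ξ ^ 4 * m - τ ^ 8 * m * b) (pow_ne_zero 4 hτ0) (by
          have : (τ ^ 4) ^ 2 * (- ξ ^ 4 * m - τ ^ 8 * m * b) =
            - τ ^ 8 * ξ ^ 4 * m - τ ^ 16 * m * b := by ring
          rw [this, h2]
          rw [← hx] at hm
          linear_combination hm)
      have M1 : Mem τ ξ 8 2 m := by
        apply R8 (by norm_num)
        refine ⟨c, b - τ ^ 8 * m, ?_⟩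
        rw [hm2, ← h2]
        ring
      have M2 : Mem τ ξ 4 3 n := by
        apply R8 (by norm_num)
        rw [hn']
        obtain ⟨P, Q, hPQ⟩ := M1
        refine ⟨- ξ ^ 4 * P - m * b, - Q, ?_⟩
        linear_combination -ξ ^ 4 * hPQ
      have L1 : Mem τ ξ 8 4 (ξ * m - τ ^ 4 * ξ ^ 3 * e2) := by
        obtain ⟨P, Q, hPQ⟩ := M2
        refine ⟨ξ * e1 + ξ * P, b2 + τ ^ 4 * Q, ?_⟩
        linear_combination ξ * hn + ξ * he1 + ξ ^ 3 * he2 + τ ^ 4 * ξ * hPQ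
      have L2 : Mem τ ξ (6 + 2) 4 (τ ^ 6 * (ξ ^ 3 * (e2 * l))) := by
        have h3 := L0''.sub (L1.mul (ξ + τ ^ 2 * l))
        have h4 : Mem τ ξ 8 4 (ξ ^ 4 * (τ ^ 4 * e2)) := Mem.right _
        have h5 := h3.sub h4
        have e : τ ^ 6 * (ξ ^ 3 * (e2 * l)) = ξ * m * (ξ + τ ^ 2 * l) - (ξ + τ ^ 2 * l) *
          (ξ * m - τ ^ 4 * ξ ^ 3 * e2) - ξ ^ 4 * (τ ^ 4 * e2) := by ring
        rw [e]
        exact h5
      have L3 : Mem τ ξ 2 (3 + 1) (ξ ^ 3 * (e2 * l)) := L2.colonL h2 h20 hx hx0 hreg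
      have L4 : Mem τ ξ 2 1 (e2 * l) := L3.colonR h2 h20 hx hx0 hreg
      -- e2 is a unit modulo (τ, ξ)
      have E8 : Mem τ ξ 1 1 (e2 ^ 8 - 1) := by
        have a1 : Mem τ ξ 1 1 (e2 ^ 2 - e1) := by
          refine ⟨τ ^ 7 * (ξ ^ 2 * b1 - ξ * b1 * b2), 0, ?_⟩
          rw [he2']
          ring
        have a2 : Mem τ ξ 1 1 (e1 ^ 2 + c) := by
          refine ⟨0, - ξ * b1 * b, ?_⟩
          rw [he1']
          ring
        have a3 : Mem τ ξ 1 1 (c ^ 2 - 1) := by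
          refine ⟨0, - ξ ^ 3 * b * c, ?_⟩
          rw [← hx] at hc
          linear_combination hc
        have e : e2 ^ 8 - 1 = ((e2 ^ 2 + e1) * (e2 ^ 4 + e1 ^ 2)) * (e2 ^ 2 - e1) + (e1 ^ 2 - c) * (e1 ^ 2 + c) +
          (c ^ 2 - 1) := by ring
        rw [e]
        exact ((a1.mul _).add (a2.mul _)).add a3
      obtain ⟨P, Q, hPQ⟩ := E8
      have L5 : Mem τ ξ 2 1 l := by
        have h3 : Mem τ ξ 2 1 (((1 - τ * P) * e2 ^ 7) * (e2 * l)) := L4.mul _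
        have h4 : Mem τ ξ 2 1 (τ ^ 2 * (P ^ 2 * l)) := Mem.left _
        have h5 : Mem τ ξ 2 1 (ξ ^ 1 * ((1 - τ * P) * Q * l)) := Mem.right _
        have h6 := (h3.add h4).sub h5
        have e : l = (1 - τ * P) * e2 ^ 7 * (e2 * l) + τ ^ 2 * (P ^ 2 * l) - ξ ^ 1 * ((1 - τ * P) * Q * l) := by
          have : (1 - τ * P) * l * (e2 ^ 8 - 1) = (1 - τ * P) * l * (τ ^ 1 * P + ξ ^ 1 * Q) := by rw [hPQ]
          linear_combination -this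
        rw [e]
        exact h6
      have L6 : Mem τ ξ 4 2 k := by
        have h3 : Mem τ ξ 4 2 (l ^ 2) := L5.sq h2 (by norm_num)
        have h4 : Mem τ ξ 4 2 (τ ^ 4 * (τ ^ 10 * ξ * l)) := Mem.left _
        have e : k = l ^ 2 + τ ^ 4 * (τ ^ 10 * ξ * l) := by linear_combination -hl
        rw [e]
        exact h3.add h4
      have L7 : Mem τ ξ 8 4 m := by
        have h3 : Mem τ ξ 8 4 (k ^ 2) := L6.sq h2 (by norm_num)
        have h4 : Mem τ ξ 8 4 (τ ^ 8 * (τ ^ 4 * ξ ^ 2 * k)) := Mem.left _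
        have e : m = k ^ 2 + τ ^ 8 * (τ ^ 4 * ξ ^ 2 * k) := by linear_combination -hk
        rw [e]
        exact h3.add h4
      have L8 : Mem τ ξ (4 + 4) 4 (τ ^ 4 * (ξ ^ 3 * e2)) := by
        have h3 := (L7.mul ξ).sub L1
        have e : τ ^ 4 * (ξ ^ 3 * e2) = ξ * m - (ξ * m - τ ^ 4 * ξ ^ 3 * e2) := by ring
        rw [e]
        exact h3
      have L9 : Mem τ ξ 4 (3 + 1) (ξ ^ 3 * e2) := L8.colonL h2 h20 hx hx0 hreg
      have L10 : Mem τ ξ 4 1 e2 := L9.colonR h2 h20 hx hx0 hreg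
      have L11 : Mem τ ξ 1 1 (e2 ^ 7 * e2) := (L10.mono (by norm_num) (by norm_num)).mul _
      apply h11
      have e : (1 : B) = e2 ^ 7 * e2 - (e2 ^ 8 - 1) := by ring
      rw [e]
      exact L11.sub ⟨P, Q, hPQ⟩

end Pool.Agent.R743.PP.Abs
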