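import Mathlib

/-!
Algebra in a commutative ring with four commuting derivations: conformal Killing fields of the
plane-fronted wave with profile `x ^ 3 - 3 * x * y ^ 2`.
-/

set_option linter.unusedSimpArgs false

namespace Pool.Agent.R743.PP

variable {A : Type*} [CommRing A] [Algebra ℝ A]

theorem cancel (n : ℕ) (hn : n ≠ 0) {a : A} (h : (n : A) * a = 0) : a = 0 := by
  have h1 : ((n : ℝ)) • a = 0 := by
    rw [Algebra.smul_def, map_natCast]; exact h
  have h2 : ((n : ℝ)) ≠ 0 := by exact_mod_cast hn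
  have h3 : ((n : ℝ))⁻¹ • (((n : ℝ)) • a) = 0 := by rw [h1, smul_zero]
  rwa [smul_smul, inv_mul_cancel₀ h2, one_smul] at h3

theorem D_ofNat (D : Derivation ℝ A A) (n : ℕ) [n.AtLeastTwo] :
    D (ofNat(n) : A) = 0 := by
  have : (ofNat(n) : A) = algebraMap ℝ A ofNat(n) := by
    rw [map_ofNat]
  rw [this, Derivation.map_algebraMap]

/-- A conformal Killing field `(T, X, Y, Z)` of the metric
`(x ^ 3 - 3 * x * y ^ 2) dt ^ 2 + 2 dt dz + dx ^ 2 + dy ^ 2` satisfies `y * X = x * Y`. -/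
theorem killing_alg (D : Fin 4 → Derivation ℝ A A) (hc : ∀ i j a, D i (D j a) = D j (D i a))
    (x y : A) (hx0 : D 0 x = 0) (hx1 : D 1 x = 1) (hx2 : D 2 x = 0) (hx3 : D 3 x = 0)
    (hy0 : D 0 y = 0) (hy1 : D 1 y = 0) (hy2 : D 2 y = 1) (hy3 : D 3 y = 0)
    (T X Y Z L : A)
    (zz : D 3 T = 0)
    (zx : D 3 X + D 1 T = 0)
    (zy : D 3 Y + D 2 T = 0)
    (xx : 2 * D 1 X = L)
    (yy : 2 * D 2 Y = L)
    (xy : D 1 Y + D 2 X = 0)
    (tz : D 0 T + D 3 Z = L)
    (tx : D 0 X + (x ^ 3 - 3 * x * y ^ 2) * D 1 T + D 1 Z = 0)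
    (ty : D 0 Y + (x ^ 3 - 3 * x * y ^ 2) * D 2 T + D 2 Z = 0)
    (tt : X * (3 * x ^ 2 - 3 * y ^ 2) + Y * (-6 * x * y)
      + 2 * ((x ^ 3 - 3 * x * y ^ 2) * D 0 T + D 0 Z) = L * (x ^ 3 - 3 * x * y ^ 2)) :
    y * X = x * Y := by
  obtain ⟨H, hH⟩ : ∃ H, H = x ^ 3 - 3 * x * y ^ 2 := ⟨_, rfl⟩
  obtain ⟨P, hP⟩ : ∃ P, P = 3 * x ^ 2 - 3 * y ^ 2 := ⟨_, rfl⟩
  obtain ⟨Q, hQ⟩ : ∃ Q, Q = -6 * x * y := ⟨_, rfl⟩
  rw [← hH] at tx ty
  rw [← hH, ← hP, ← hQ] at tt
  have c10 := hc 1 0
  have c20 := hc 2 0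
  have c30 := hc 3 0
  have c21 := hc 2 1
  have c31 := hc 3 1
  have c32 := hc 3 2
  have H' : H = x * x * x - 3 * x * (y * y) := by rw [hH]; ring
  have P' : P = 3 * (x * x) - 3 * (y * y) := by rw [hP]; ring
  have Q' : Q = -(6 * x * y) := by rw [hQ]; ring
  have hH0 : D 0 H = 0 := by
    rw [H']; simp only [map_sub, Derivation.leibniz, smul_eq_mul, D_ofNat, hx0, hy0]; ring
  have hH1 : D 1 H = P := by
    rw [H', P']; simp only [map_sub, Derivation.leibniz, smul_eq_mul, D_ofNat, hx1, hy1]; ring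
  have hH2 : D 2 H = Q := by
    rw [H', Q']; simp only [map_sub, Derivation.leibniz, smul_eq_mul, D_ofNat, hx2, hy2]; ring
  have hH3 : D 3 H = 0 := by
    rw [H']; simp only [map_sub, Derivation.leibniz, smul_eq_mul, D_ofNat, hx3, hy3]; ring
  have hP0 : D 0 P = 0 := by
    rw [P']; simp only [map_sub, Derivation.leibniz, smul_eq_mul, D_ofNat, hx0, hy0]; ring
  have hP1 : D 1 P = 6 * x := by
    rw [P']; simp only [map_sub, Derivation.leibniz, smul_eq_mul, D_ofNat, hx1, hy1]; ring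
  have hP2 : D 2 P = -(6 * y) := by
    rw [P']; simp only [map_sub, Derivation.leibniz, smul_eq_mul, D_ofNat, hx2, hy2]; ring
  have hP3 : D 3 P = 0 := by
    rw [P']; simp only [map_sub, Derivation.leibniz, smul_eq_mul, D_ofNat, hx3, hy3]; ring
  have hQ0 : D 0 Q = 0 := by
    rw [Q']; simp only [map_neg, Derivation.leibniz, smul_eq_mul, D_ofNat, hx0, hy0]; ring
  have hQ1 : D 1 Q = -(6 * y) := by
    rw [Q']; simp only [map_neg, Derivation.leibniz, smul_eq_mul, D_ofNat, hx1, hy1]; ring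
  have hQ2 : D 2 Q = -(6 * x) := by
    rw [Q']; simp only [map_neg, Derivation.leibniz, smul_eq_mul, D_ofNat, hx2, hy2]; ring
  have hQ3 : D 3 Q = 0 := by
    rw [Q']; simp only [map_neg, Derivation.leibniz, smul_eq_mul, D_ofNat, hx3, hy3]; ring
  -- elimination rules
  have rX3 : D 3 X = -D 1 T := by linear_combination zx
  have rY3 : D 3 Y = -D 2 T := by linear_combination zy
  have rX2 : D 2 X = -D 1 Y := by linear_combination xy
  have rY2 : D 2 Y = D 1 X := by
    have : ((2 : ℕ) : A) * (D 2 Y - D 1 X) = 0 := by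
      push_cast; linear_combination yy - xx
    exact sub_eq_zero.1 (cancel 2 (by norm_num) this)
  have rZ3 : D 3 Z = 2 * D 1 X - D 0 T := by linear_combination tz - xx
  have rZ1 : D 1 Z = -D 0 X - H * D 1 T := by linear_combination tx
  have rZ2 : D 2 Z = -D 0 Y - H * D 2 T := by linear_combination ty
  -- second derivatives of T
  have t1 : D 2 (D 2 T) = D 1 (D 1 T) := by
    have h := congrArg (D 3) rY2
    rw [hc 3 2, hc 3 1, rY3, rX3, map_neg, map_neg] at h
    linear_combination -h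
  have t2 : D 1 (D 2 T) = 0 := by
    have h := congrArg (D 3) rX2
    rw [hc 3 2, rX3, map_neg, map_neg, hc 3 1, rY3, hc 2 1, map_neg] at h
    have : ((2 : ℕ) : A) * (D 1 (D 2 T)) = 0 := by
      push_cast; linear_combination -h
    exact cancel 2 (by norm_num) this
  have t3 : D 1 (D 1 (D 1 T)) = 0 := by
    rw [← t1, hc 1 2, t2, map_zero]
  -- second derivatives of X and Y
  have x11 : D 1 (D 1 X) = D 0 (D 1 T) := by
    have h := congrArg (D 1) rZ3
    rw [hc 1 3, rZ1, map_sub, map_sub, map_neg, hc 3 0, rX3, Derivation.leibniz,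
      Derivation.leibniz, hH3, hc 3 1, zz, hc 1 0, D_ofNat] at h
    simp only [map_neg, map_zero, smul_eq_mul] at h
    have : ((2 : ℕ) : A) * (D 1 (D 1 X) - D 0 (D 1 T)) = 0 := by
      push_cast; linear_combination -h
    exact sub_eq_zero.1 (cancel 2 (by norm_num) this)
  have y11 : D 1 (D 1 Y) = -D 0 (D 2 T) := by
    have h := congrArg (D 2) rZ3
    rw [hc 2 3, rZ2, map_sub, map_sub, map_neg, hc 3 0, rY3, Derivation.leibniz,
      Derivation.leibniz, hH3, hc 3 2, zz, hc 2 0, D_ofNat, hc 2 1, rX2] at h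
    simp only [map_neg, map_zero, smul_eq_mul] at h
    have : ((2 : ℕ) : A) * (D 1 (D 1 Y) + D 0 (D 2 T)) = 0 := by
      push_cast; linear_combination h
    exact eq_neg_of_add_eq_zero_left (cancel 2 (by norm_num) this)
  have C1 : 2 * D 0 (D 1 Y) = Q * D 1 T - P * D 2 T := by
    have h := congrArg (D 2) rZ1
    rw [hc 2 1, rZ2] at h
    simp only [map_sub, map_neg, Derivation.leibniz, smul_eq_mul, c20, c10, c21, rX2, hH1, hH2,
      t2] at h
    linear_combination -h
  -- the two compatibility conditions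
  have C2 : -2 * D 0 (D 0 (D 2 T)) = -(6 * y) * D 1 T + Q * D 1 (D 1 T) - 6 * x * D 2 T := by
    have h := congrArg (D 1) C1
    simp only [map_sub, Derivation.leibniz, smul_eq_mul, D_ofNat, c10, y11, map_neg, hQ1, hP1, t2]
      at h
    linear_combination h
  have C3 : 2 * D 0 (D 0 (D 1 T)) = -(6 * x) * D 1 T + 6 * y * D 2 T - P * D 1 (D 1 T) := by
    have h := congrArg (D 2) C1
    simp only [map_sub, Derivation.leibniz, smul_eq_mul, D_ofNat, c20, c21, rY2, x11, t1, t2,
      hQ2, hP2] at h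
    linear_combination h
  have e1 : D 2 T = -2 * y * D 1 (D 1 T) := by
    have h := congrArg (D 1) C2
    simp only [map_add, map_sub, map_neg, Derivation.leibniz, smul_eq_mul, D_ofNat, c10, t2,
      map_zero, hx1, hy1, hQ1, t3] at h
    have : ((6 : ℕ) : A) * (D 2 T + 2 * y * D 1 (D 1 T)) = 0 := by
      push_cast; linear_combination h
    linear_combination cancel 6 (by norm_num) this
  have e2 : D 1 (D 1 T) = 0 := by
    have h := congrArg (D 2) e1
    simp only [map_neg, Derivation.leibniz, smul_eq_mul, D_ofNat, c21, t2,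
      map_zero, hy2, t1] at h
    have : ((3 : ℕ) : A) * (D 1 (D 1 T)) = 0 := by
      push_cast; linear_combination h
    exact cancel 3 (by norm_num) this
  have T2 : D 2 T = 0 := by rw [e1, e2, mul_zero]
  have T1 : D 1 T = 0 := by
    have h := congrArg (D 1) C3
    simp only [map_add, map_sub, map_neg, Derivation.leibniz, smul_eq_mul, D_ofNat, c10, T2, e2,
      map_zero, hx1, hy1, hP1] at h
    have : ((6 : ℕ) : A) * (D 1 T) = 0 := by
      push_cast; linear_combination h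
    exact cancel 6 (by norm_num) this
  -- now `T` depends on `t` only
  have x11' : D 1 (D 1 X) = 0 := by rw [x11, T1, map_zero]
  have y11' : D 1 (D 1 Y) = 0 := by rw [y11, T2, map_zero, neg_zero]
  have y01 : D 0 (D 1 Y) = 0 := by
    rw [T1, T2] at C1
    have : ((2 : ℕ) : A) * (D 0 (D 1 Y)) = 0 := by
      push_cast; linear_combination C1
    exact cancel 2 (by norm_num) this
  have tt' : X * P + Y * Q + 2 * (H * D 0 T + D 0 Z) = 2 * D 1 X * H := by
    linear_combination tt - H * xx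
  have E3 : 6 * X - 12 * y * D 1 Y + 12 * x * D 0 T - 2 * D 0 (D 0 (D 1 X)) = 0 := by
    have h := congrArg (D 1) (congrArg (D 1) tt')
    simp only [map_add, map_sub, map_neg, Derivation.leibniz, smul_eq_mul, D_ofNat, c10, T1, T2,
      map_zero, hx1, hy1, hP1, hQ1, hH1, x11', y11', rZ1] at h
    linear_combination h
  have X1 : D 1 X = -2 * D 0 T := by
    have h := congrArg (D 1) E3
    simp only [map_add, map_sub, map_neg, Derivation.leibniz, smul_eq_mul, D_ofNat, c10, T1, T2,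
      map_zero, hx1, hy1, hP1, hQ1, hH1, x11', y11', rZ1] at h
    have : ((6 : ℕ) : A) * (D 1 X + 2 * D 0 T) = 0 := by
      push_cast; linear_combination h
    linear_combination cancel 6 (by norm_num) this
  have Y1 : D 1 Y = 0 := by
    have h := congrArg (D 2) E3
    simp only [map_add, map_sub, map_neg, Derivation.leibniz, smul_eq_mul, D_ofNat, c10, c20, c21,
      T1, T2, map_zero, hx2, hy2, hP1, hQ1, hH1, x11', y11', rX2, rY2, rZ1] at h
    have : ((18 : ℕ) : A) * (D 1 Y) = 0 := by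
      push_cast; linear_combination -h
    exact cancel 18 (by norm_num) this
  have T00 : D 0 (D 0 T) = 0 := by
    have h := congrArg (D 3) tt'
    simp only [map_add, map_sub, map_neg, Derivation.leibniz, smul_eq_mul, D_ofNat, c30, c31,
      T1, T2, zz, map_zero, hx3, hy3, hP3, hQ3, hH3, rX3, rY3, rZ3] at h
    have X01 : D 0 (D 1 X) = -2 * D 0 (D 0 T) := by
      rw [X1]
      simp only [map_neg, Derivation.leibniz, smul_eq_mul, D_ofNat]
      ring
    have : ((10 : ℕ) : A) * (D 0 (D 0 T)) = 0 := by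
      push_cast; linear_combination -h + 4 * X01
    exact cancel 10 (by norm_num) this
  have X0 : X = -2 * x * D 0 T := by
    rw [X1, Y1] at E3
    simp only [map_neg, Derivation.leibniz, smul_eq_mul, D_ofNat, T00, map_zero, mul_zero,
      neg_zero, add_zero, map_sub, sub_zero] at E3
    have : ((6 : ℕ) : A) * (X + 2 * x * D 0 T) = 0 := by
      push_cast; linear_combination E3
    linear_combination cancel 6 (by norm_num) this
  have Y0 : Y = -2 * y * D 0 T := by
    have h := congrArg (D 2) (congrArg (D 1) tt')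
    simp only [map_add, map_sub, map_neg, Derivation.leibniz, smul_eq_mul, D_ofNat, c10, c20, c21,
      T1, T2, map_zero, hx1, hx2, hy1, hy2, hP1, hP2, hQ1, hQ2, hH1, hH2, x11', y11', rX2, rY2,
      rZ1, Y1, X1, T00] at h
    have : ((6 : ℕ) : A) * (Y + 2 * y * D 0 T) = 0 := by
      push_cast; linear_combination -h
    linear_combination cancel 6 (by norm_num) this
  rw [X0, Y0]; ring

/-- The equations of almost Einstein scales of the plane-fronted wave: the solution depends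
affinely on `t` only. -/
theorem einstein_alg (D : Fin 4 → Derivation ℝ A A) (hc : ∀ i j a, D i (D j a) = D j (D i a))
    (x y : A) (hx1 : D 1 x = 1) (hx2 : D 2 x = 0) (hy1 : D 1 y = 0) (hy2 : D 2 y = 1)
    (s m : A)
    (h33 : D 3 (D 3 s) = 0) (h13 : D 1 (D 3 s) = 0) (h23 : D 2 (D 3 s) = 0)
    (h12 : D 1 (D 2 s) = 0) (h03 : D 0 (D 3 s) = m) (h11 : D 1 (D 1 s) = m)
    (h22 : D 2 (D 2 s) = m)
    (h01 : 2 * D 0 (D 1 s) = (3 * x ^ 2 - 3 * y ^ 2) * D 3 s)
    (h02 : 2 * D 0 (D 2 s) = (-6 * x * y) * D 3 s)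
    (h00 : 2 * D 0 (D 0 s) + (3 * x ^ 2 - 3 * y ^ 2) * D 1 s + (-6 * x * y) * D 2 s
      = 2 * m * (x ^ 3 - 3 * x * y ^ 2)) :
    D 1 s = 0 ∧ D 2 s = 0 ∧ D 3 s = 0 ∧ D 0 (D 0 s) = 0 := by
  obtain ⟨P, hP⟩ : ∃ P, P = 3 * x ^ 2 - 3 * y ^ 2 := ⟨_, rfl⟩
  obtain ⟨Q, hQ⟩ : ∃ Q, Q = -6 * x * y := ⟨_, rfl⟩
  rw [← hP] at h01 h00
  rw [← hQ] at h02 h00
  have c10 := hc 1 0
  have c20 := hc 2 0
  have c30 := hc 3 0
  have c21 := hc 2 1
  have c31 := hc 3 1
  have c32 := hc 3 2
  have P' : P = 3 * (x * x) - 3 * (y * y) := by rw [hP]; ring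
  have Q' : Q = -(6 * x * y) := by rw [hQ]; ring
  have hP1 : D 1 P = 6 * x := by
    rw [P']; simp only [map_sub, Derivation.leibniz, smul_eq_mul, D_ofNat, hx1, hy1]; ring
  have hP2 : D 2 P = -(6 * y) := by
    rw [P']; simp only [map_sub, Derivation.leibniz, smul_eq_mul, D_ofNat, hx2, hy2]; ring
  have hQ1 : D 1 Q = -(6 * y) := by
    rw [Q']; simp only [map_neg, Derivation.leibniz, smul_eq_mul, D_ofNat, hx1, hy1]; ring
  have hQ2 : D 2 Q = -(6 * x) := by
    rw [Q']; simp only [map_neg, Derivation.leibniz, smul_eq_mul, D_ofNat, hx2, hy2]; ring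
  have s3 : D 3 s = 0 := by
    have h := congrArg (D 2) h01
    simp only [Derivation.leibniz, smul_eq_mul, D_ofNat, c20, c21, h12, map_zero, hP2,
      h23] at h
    have h' := congrArg (D 2) h
    simp only [map_add, map_neg, Derivation.leibniz, smul_eq_mul, D_ofNat, map_zero, mul_zero, hy2,
      h23] at h'
    have : ((6 : ℕ) : A) * (D 3 s) = 0 := by
      push_cast; linear_combination h'
    exact cancel 6 (by norm_num) this
  have m0 : m = 0 := by rw [← h03, s3, map_zero]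
  have s01 : D 0 (D 1 s) = 0 := by
    rw [s3, mul_zero] at h01
    exact cancel 2 (by norm_num) (by push_cast; exact h01)
  have s02 : D 0 (D 2 s) = 0 := by
    rw [s3, mul_zero] at h02
    exact cancel 2 (by norm_num) (by push_cast; exact h02)
  have k1 : 6 * x * D 1 s - 6 * y * D 2 s = 0 := by
    have h := congrArg (D 1) h00
    rw [m0] at h
    simp only [map_add, Derivation.leibniz, smul_eq_mul, D_ofNat, c10, s01, map_zero, mul_zero,
      zero_mul, hP1, hQ1, h11, h12, m0] at h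
    linear_combination h
  have s1 : D 1 s = 0 := by
    have h := congrArg (D 1) k1
    simp only [map_add, map_sub, Derivation.leibniz, smul_eq_mul, D_ofNat, map_zero, hx1, hy1,
      h11, h12, m0] at h
    have : ((6 : ℕ) : A) * (D 1 s) = 0 := by
      push_cast; linear_combination h
    exact cancel 6 (by norm_num) this
  have s2 : D 2 s = 0 := by
    have h := congrArg (D 2) k1
    simp only [map_add, map_sub, Derivation.leibniz, smul_eq_mul, D_ofNat, map_zero, hx2, hy2,
      h22, c21, h12, m0] at h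
    have : ((6 : ℕ) : A) * (D 2 s) = 0 := by
      push_cast; linear_combination -h
    exact cancel 6 (by norm_num) this
  refine ⟨s1, s2, s3, ?_⟩
  rw [s1, s2, m0] at h00
  exact cancel 2 (by norm_num) (by push_cast; linear_combination h00)

/-- Pulling back the Killing field `(a, d e ^ t, b, c - d e ^ t x)` of
`x ^ 2 dt ^ 2 + 2 dt dz + dx ^ 2 + dy ^ 2`: the Lie derivative of the pulled back metric
vanishes. -/
theorem lie_zero (D : Fin 4 → Derivation ℝ A A) (hc : ∀ i j a, D i (D j a) = D j (D i a))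
    (F0 F1 F2 F3 K0 K1 K2 K3 a b c d E : A)
    (ha : ∀ i, D i a = 0) (hb : ∀ i, D i b = 0) (hcc : ∀ i, D i c = 0) (hd : ∀ i, D i d = 0)
    (hE : ∀ i, D i E = E * D i F0)
    (k0 : K0 * D 0 F0 + K1 * D 1 F0 + K2 * D 2 F0 + K3 * D 3 F0 = a)
    (k1 : K0 * D 0 F1 + K1 * D 1 F1 + K2 * D 2 F1 + K3 * D 3 F1 = d * E)
    (k2 : K0 * D 0 F2 + K1 * D 1 F2 + K2 * D 2 F2 + K3 * D 3 F2 = b)
    (k3 : K0 * D 0 F3 + K1 * D 1 F3 + K2 * D 2 F3 + K3 * D 3 F3 = c - d * E * F1)
    (h : Fin 4 → Fin 4 → A)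
    (hh : ∀ i j, h i j = F1 * F1 * D i F0 * D j F0 + D i F0 * D j F3 + D i F3 * D j F0
      + D i F1 * D j F1 + D i F2 * D j F2) (i j : Fin 4) :
    (K0 * D 0 (h i j) + K1 * D 1 (h i j) + K2 * D 2 (h i j) + K3 * D 3 (h i j))
      + (D i K0 * h 0 j + D i K1 * h 1 j + D i K2 * h 2 j + D i K3 * h 3 j)
      + (D j K0 * h i 0 + D j K1 * h i 1 + D j K2 * h i 2 + D j K3 * h i 3) = 0 := by
  have k0i := congrArg (D i) k0
  have k1i := congrArg (D i) k1
  have k2i := congrArg (D i) k2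
  have k3i := congrArg (D i) k3
  have k0j := congrArg (D j) k0
  have k1j := congrArg (D j) k1
  have k2j := congrArg (D j) k2
  have k3j := congrArg (D j) k3
  simp only [map_add, map_sub, Derivation.leibniz, smul_eq_mul, ha, hb, hcc, hd, hE] at k0i k1i
  simp only [map_add, map_sub, Derivation.leibniz, smul_eq_mul, ha, hb, hcc, hd, hE] at k2i k3i
  simp only [map_add, map_sub, Derivation.leibniz, smul_eq_mul, ha, hb, hcc, hd, hE] at k0j k1j
  simp only [map_add, map_sub, Derivation.leibniz, smul_eq_mul, ha, hb, hcc, hd, hE] at k2j k3j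
  simp only [hh, map_add, Derivation.leibniz, smul_eq_mul]
  rw [hc 0 i F0, hc 0 i F1, hc 0 i F2, hc 0 i F3, hc 1 i F0, hc 1 i F1, hc 1 i F2, hc 1 i F3,
    hc 2 i F0, hc 2 i F1, hc 2 i F2, hc 2 i F3, hc 3 i F0, hc 3 i F1, hc 3 i F2, hc 3 i F3,
    hc 0 j F0, hc 0 j F1, hc 0 j F2, hc 0 j F3, hc 1 j F0, hc 1 j F1, hc 1 j F2, hc 1 j F3,
    hc 2 j F0, hc 2 j F1, hc 2 j F2, hc 2 j F3, hc 3 j F0, hc 3 j F1, hc 3 j F2, hc 3 j F3]
  linear_combination (F1 * F1 * D j F0 + D j F3) * k0i + D j F1 * k1i + D j F2 * k2i + D j F0 * k3i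
    + (F1 * F1 * D i F0 + D i F3) * k0j + D i F1 * k1j + D i F2 * k2j + D i F0 * k3j
    + 2 * F1 * D i F0 * D j F0 * k1

end Pool.Agent.R743.PP
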