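import Pool.Agent.R743.PP.Alg

/-!
Algebra of local conformal isomorphisms between the two plane-fronted waves.
-/

set_option linter.unusedSimpArgs false

namespace Pool.Agent.R743.PP

variable {A : Type*} [CommRing A] [Algebra ℝ A]

theorem conf_alg (D : Fin 4 → Derivation ℝ A A) (hc : ∀ i j a, D i (D j a) = D j (D i a))
    (x y : A) (hx0 : D 0 x = 0) (hx1 : D 1 x = 1) (hx2 : D 2 x = 0) (hx3 : D 3 x = 0)
    (hy0 : D 0 y = 0) (hy1 : D 1 y = 0) (hy2 : D 2 y = 1) (hy3 : D 3 y = 0)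
    (F0 F1 F2 F3 K0 K1 K2 K3 a b c d E ps ps' : A)
    (ha : ∀ i, D i a = 0) (hb : ∀ i, D i b = 0) (hcc : ∀ i, D i c = 0) (hd : ∀ i, D i d = 0)
    (hE : ∀ i, D i E = E * D i F0)
    (k0 : K0 * D 0 F0 + K1 * D 1 F0 + K2 * D 2 F0 + K3 * D 3 F0 = a)
    (k1 : K0 * D 0 F1 + K1 * D 1 F1 + K2 * D 2 F1 + K3 * D 3 F1 = d * E)
    (k2 : K0 * D 0 F2 + K1 * D 1 F2 + K2 * D 2 F2 + K3 * D 3 F2 = b)
    (k3 : K0 * D 0 F3 + K1 * D 1 F3 + K2 * D 2 F3 + K3 * D 3 F3 = c - d * E * F1)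
    (hps : ps' * ps = 1) (g : Fin 4 → Fin 4 → A)
    (hg : g = ![![x ^ 3 - 3 * x * y ^ 2, 0, 0, 1], ![0, 1, 0, 0], ![0, 0, 1, 0], ![1, 0, 0, 0]])
    (hh : ∀ i j, F1 * F1 * D i F0 * D j F0 + D i F0 * D j F3 + D i F3 * D j F0
      + D i F1 * D j F1 + D i F2 * D j F2 = ps * g i j) :
    y * K1 = x * K2 := by
  have key := lie_zero D hc F0 F1 F2 F3 K0 K1 K2 K3 a b c d E ha hb hcc hd hE k0 k1 k2 k3
    (fun i j => ps * g i j) (fun i j => (hh i j).symm)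
  have H' : x ^ 3 - 3 * x * y ^ 2 = x * x * x - 3 * x * (y * y) := by ring
  have hH0 : D 0 (x ^ 3 - 3 * x * y ^ 2) = 0 := by
    rw [H']; simp only [map_sub, Derivation.leibniz, smul_eq_mul, D_ofNat, hx0, hy0]; ring
  have hH1 : D 1 (x ^ 3 - 3 * x * y ^ 2) = 3 * x ^ 2 - 3 * y ^ 2 := by
    rw [H']; simp only [map_sub, Derivation.leibniz, smul_eq_mul, D_ofNat, hx1, hy1]; ring
  have hH2 : D 2 (x ^ 3 - 3 * x * y ^ 2) = -6 * x * y := by
    rw [H']; simp only [map_sub, Derivation.leibniz, smul_eq_mul, D_ofNat, hx2, hy2]; ring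
  have hH3 : D 3 (x ^ 3 - 3 * x * y ^ 2) = 0 := by
    rw [H']; simp only [map_sub, Derivation.leibniz, smul_eq_mul, D_ofNat, hx3, hy3]; ring
  have g00 : g 0 0 = x ^ 3 - 3 * x * y ^ 2 := by rw [hg]; rfl
  have g01 : g 0 1 = 0 := by rw [hg]; rfl
  have g02 : g 0 2 = 0 := by rw [hg]; rfl
  have g03 : g 0 3 = 1 := by rw [hg]; rfl
  have g10 : g 1 0 = 0 := by rw [hg]; rfl
  have g11 : g 1 1 = 1 := by rw [hg]; rfl
  have g12 : g 1 2 = 0 := by rw [hg]; rfl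
  have g13 : g 1 3 = 0 := by rw [hg]; rfl
  have g20 : g 2 0 = 0 := by rw [hg]; rfl
  have g21 : g 2 1 = 0 := by rw [hg]; rfl
  have g22 : g 2 2 = 1 := by rw [hg]; rfl
  have g23 : g 2 3 = 0 := by rw [hg]; rfl
  have g30 : g 3 0 = 1 := by rw [hg]; rfl
  have g31 : g 3 1 = 0 := by rw [hg]; rfl
  have g32 : g 3 2 = 0 := by rw [hg]; rfl
  have g33 : g 3 3 = 0 := by rw [hg]; rfl
  have one : ∀ i, D i (1 : A) = 0 := fun i => (D i).map_one_eq_zero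
  obtain ⟨L, hL⟩ : ∃ L, L = -(ps' * (K0 * D 0 ps + K1 * D 1 ps + K2 * D 2 ps + K3 * D 3 ps)) :=
    ⟨_, rfl⟩
  have e33 := key 3 3
  have e13 := key 1 3
  have e23 := key 2 3
  have e11 := key 1 1
  have e22 := key 2 2
  have e12 := key 1 2
  have e03 := key 0 3
  have e01 := key 0 1
  have e02 := key 0 2
  have e00 := key 0 0
  simp only [g00, g01, g02, g03, g10, g11, g12, g13, g20, g21, g22, g23, g30, g31, g32, g33,
    Derivation.leibniz, smul_eq_mul, one, map_zero, mul_zero, mul_one, add_zero, zero_add]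
    at e33 e13 e23 e11 e22 e12 e03 e01 e02
  simp only [g00, g01, g02, g03, g10, g11, g12, g13, g20, g21, g22, g23, g30, g31, g32, g33,
    Derivation.leibniz, smul_eq_mul, hH0, hH1, hH2, hH3] at e00
  have zz : D 3 K0 = 0 := by
    refine cancel 2 (by norm_num) ?_
    push_cast
    linear_combination ps' * e33 - 2 * D 3 K0 * hps
  have zx : D 3 K1 + D 1 K0 = 0 := by
    linear_combination ps' * e13 - (D 3 K1 + D 1 K0) * hps
  have zy : D 3 K2 + D 2 K0 = 0 := by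
    linear_combination ps' * e23 - (D 3 K2 + D 2 K0) * hps
  have xx : 2 * D 1 K1 = L := by
    linear_combination ps' * e11 - 2 * D 1 K1 * hps - hL
  have yy : 2 * D 2 K2 = L := by
    linear_combination ps' * e22 - 2 * D 2 K2 * hps - hL
  have xy : D 1 K2 + D 2 K1 = 0 := by
    linear_combination ps' * e12 - (D 1 K2 + D 2 K1) * hps
  have tz : D 0 K0 + D 3 K3 = L := by
    linear_combination ps' * e03 - (D 0 K0 + D 3 K3 + (x ^ 3 - 3 * x * y ^ 2) * D 3 K0) * hps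
      - hL - (x ^ 3 - 3 * x * y ^ 2) * zz
  have tx : D 0 K1 + (x ^ 3 - 3 * x * y ^ 2) * D 1 K0 + D 1 K3 = 0 := by
    linear_combination ps' * e01 - (D 0 K1 + (x ^ 3 - 3 * x * y ^ 2) * D 1 K0 + D 1 K3) * hps
  have ty : D 0 K2 + (x ^ 3 - 3 * x * y ^ 2) * D 2 K0 + D 2 K3 = 0 := by
    linear_combination ps' * e02 - (D 0 K2 + (x ^ 3 - 3 * x * y ^ 2) * D 2 K0 + D 2 K3) * hps
  have tt : K1 * (3 * x ^ 2 - 3 * y ^ 2) + K2 * (-6 * x * y)
      + 2 * ((x ^ 3 - 3 * x * y ^ 2) * D 0 K0 + D 0 K3) = L * (x ^ 3 - 3 * x * y ^ 2) := by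
    linear_combination ps' * e00 - (K1 * (3 * x ^ 2 - 3 * y ^ 2) + K2 * (-6 * x * y)
      + 2 * ((x ^ 3 - 3 * x * y ^ 2) * D 0 K0 + D 0 K3)) * hps
      - (x ^ 3 - 3 * x * y ^ 2) * hL
  exact killing_alg D hc x y hx0 hx1 hx2 hx3 hy0 hy1 hy2 hy3 K0 K1 K2 K3 L zz zx zy xx yy xy tz
    tx ty tt

end Pool.Agent.R743.PP
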