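import Pool.Agent.R743.PP.Stm

/-!
# Definitions for the final statement of project PP (MP_f54cc4_ag), over an abstract domain
-/

set_option autoImplicit false

open Filter Topology TensorProduct

namespace Pool.Agent.R743.PP

/-- `R⁺`: the integral closure of the domain `R` in an algebraic closure of its fraction field -/
noncomputable abbrev PlusOf (R : Type) [CommRing R] [IsDomain R] :=
  integralClosure R (AlgebraicClosure (FractionRing R))

/-- the rational numbers `n / m` such that some `g : S` with `g ^ m = f ^ n` makes `1 ↦ g` a pure map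
`R → S` -/
def pureExps (R S : Type) [CommRing R] [CommRing S] [Algebra R S] (f : R) : Set ℝ :=
  {α | ∃ n m : ℕ, 0 < m ∧ α = (n : ℝ) / m ∧ ∃ g : S, g ^ m = (algebraMap R S f) ^ n ∧
    IsPureMap (LinearMap.toSpanSingleton R S g)}

/-- the exponents `α = n / m` for which the map `R → R⁺`, `1 ↦ f ^ α`, is pure -/
def PPof (R : Type) [CommRing R] [IsDomain R] (f : R) : Set ℝ := pureExps R (PlusOf R) f

/-- the plus-pure threshold of `f` -/
noncomputable def pptOf (R : Type) [CommRing R] [IsDomain R] (f : R) : ℝ := sSup (PPof R f)

theorem PPof_eq (p : ℕ) [Fact p.Prime] (a b : ℕ) : PPof (Rp p) (ff p a b) = PPset p a b := rfl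

end Pool.Agent.R743.PP
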