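import Pool.Agent.R743.PP.Reg

/-! PP-FLAT: `R⁺` is flat over `ℤ_2[[x]]`. -/

set_option autoImplicit false

open TensorProduct

namespace Pool.Agent.R743.PP

noncomputable section

theorem mem_max (r : Rp 2) (h : r ∈ IsLocalRing.maximalIdeal (Rp 2)) :
    ∃ a b : Rp 2, r = a * 2 + b * PowerSeries.X := by
  have h1 : ¬ IsUnit r := h
  rw [PowerSeries.isUnit_iff_constantCoeff] at h1
  have h2 : PowerSeries.constantCoeff r ∈ IsLocalRing.maximalIdeal ℤ_[2] := h1
  rw [PadicInt.maximalIdeal_eq_span_p, Ideal.mem_span_singleton] at h2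
  obtain ⟨c, hc⟩ := h2
  refine ⟨PowerSeries.C c, PowerSeries.mk fun p => PowerSeries.coeff (p + 1) r, ?_⟩
  have h3 : (PowerSeries.C c * 2 : Rp 2) = PowerSeries.C (PowerSeries.constantCoeff r) := by
    rw [hc, map_mul, mul_comm]
    congr 1
  rw [h3, add_comm, mul_comm]
  exact PowerSeries.eq_X_mul_shift_add_const r

theorem two_mem : (2 : Rp 2) ∈ IsLocalRing.maximalIdeal (Rp 2) := by
  show ¬ IsUnit (2 : Rp 2)
  rw [PowerSeries.isUnit_iff_constantCoeff, map_ofNat]
  have h : (2 : ℤ_[2]) ∈ IsLocalRing.maximalIdeal ℤ_[2] := by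
    rw [PadicInt.maximalIdeal_eq_span_p, Ideal.mem_span_singleton]
    simp
  exact h

theorem X_mem : (PowerSeries.X : Rp 2) ∈ IsLocalRing.maximalIdeal (Rp 2) := by
  show ¬ IsUnit (PowerSeries.X : Rp 2)
  rw [PowerSeries.isUnit_iff_constantCoeff]
  simp

theorem free_of (M : Type) [AddCommGroup M] [Module (Rp 2) M] [Module.Finite (Rp 2) M]
    (H : ∀ u v : M, (2 : Rp 2) • u + (PowerSeries.X : Rp 2) • v = 0 →
      ∃ d : M, u = (PowerSeries.X : Rp 2) • d ∧ v = -((2 : Rp 2) • d)) : Module.Free (Rp 2) M := by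
  have : Module.FinitePresentation (Rp 2) M := Module.finitePresentation_of_finite (Rp 2) M
  apply Module.free_of_maximalIdeal_rTensor_injective
  rw [injective_iff_map_eq_zero]
  set p2 : IsLocalRing.maximalIdeal (Rp 2) := ⟨2, two_mem⟩ with hp2
  set pX : IsLocalRing.maximalIdeal (Rp 2) := ⟨PowerSeries.X, X_mem⟩ with hpX
  have key : ∀ t : IsLocalRing.maximalIdeal (Rp 2) ⊗[Rp 2] M, ∃ u v : M,
      t = p2 ⊗ₜ[Rp 2] u + pX ⊗ₜ[Rp 2] v := by
    intro t
    induction t using TensorProduct.induction_on with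
    | zero => exact ⟨0, 0, by simp⟩
    | tmul m w =>
      obtain ⟨a, b, hab⟩ := mem_max m.1 m.2
      refine ⟨a • w, b • w, ?_⟩
      have e : m = a • p2 + b • pX := by
        apply Subtype.ext
        simp only [Submodule.coe_add, Submodule.coe_smul, smul_eq_mul]
        exact hab
      rw [e, TensorProduct.add_tmul, TensorProduct.smul_tmul, TensorProduct.smul_tmul]
    | add s t hs ht =>
      obtain ⟨u, v, rfl⟩ := hs
      obtain ⟨u', v', rfl⟩ := ht
      refine ⟨u + u', v + v', ?_⟩
      rw [TensorProduct.tmul_add, TensorProduct.tmul_add]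
      abel
  intro t ht
  obtain ⟨u, v, rfl⟩ := key t
  have h1 := congrArg (TensorProduct.lid (Rp 2) M) ht
  simp only [map_add, LinearMap.rTensor_tmul, TensorProduct.lid_tmul, Submodule.subtype_apply,
    map_zero, hp2, hpX] at h1
  obtain ⟨d, rfl, rfl⟩ := H u v h1
  rw [TensorProduct.tmul_neg, ← TensorProduct.smul_tmul, ← TensorProduct.smul_tmul]
  have e : (PowerSeries.X : Rp 2) • p2 = (2 : Rp 2) • pX := by
    apply Subtype.ext
    simp only [Submodule.coe_smul, smul_eq_mul, hp2, hpX]
    ring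
  rw [e]
  exact add_neg_cancel _

instance charZero_KK : CharZero KK := by
  have h : Function.Injective ((algebraMap (Rp 2) KK).comp (PowerSeries.C (R := ℤ_[2]))) := by
    rw [RingHom.coe_comp]
    exact inj_RK.comp PowerSeries.C_injective
  exact charZero_of_injective_ringHom h

theorem flat (hR : S_REG) : S_FLAT := by
  unfold S_FLAT
  rw [Module.Flat.iff_forall_isTrivialRelation]
  intro l f x hx
  let E : IntermediateField KK LL := IntermediateField.adjoin KK (Set.range fun i => (x i : LL))
  have hfd : FiniteDimensional KK E := IntermediateField.finiteDimensional_adjoin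
    (fun y _ => Algebra.IsIntegral.isIntegral y)
  have hsep : Algebra.IsSeparable KK E := inferInstance
  let ι : E →ₐ[Rp 2] LL := (IntermediateField.val E).restrictScalars (Rp 2)
  have hι : Function.Injective ι := (IntermediateField.val E).toRingHom.injective
  let φ : integralClosure (Rp 2) E →ₐ[Rp 2] Rplus 2 := ι.mapIntegralClosure
  have hφ : ∀ s, ((φ s : Rplus 2) : LL) = ι s := fun s => rfl
  have hφi : Function.Injective φ := by
    intro s t h
    apply Subtype.ext
    apply hι
    rw [← hφ, ← hφ, h]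
  have hlift : ∀ (y : Rplus 2), (y : LL) ∈ E → ∃ s, φ s = y := by
    intro y hy
    have h1 : IsIntegral (Rp 2) (⟨(y : LL), hy⟩ : E) := by
      rw [← isIntegral_algHom_iff ι hι]
      exact y.2
    exact ⟨⟨⟨(y : LL), hy⟩, h1⟩, Subtype.ext rfl⟩
  have hnoeth : IsNoetherian (Rp 2) (integralClosure (Rp 2) E) :=
    IsIntegralClosure.isNoetherian (Rp 2) KK E (integralClosure (Rp 2) E)
  have hfin : Module.Finite (Rp 2) (integralClosure (Rp 2) E) := inferInstance
  have hXL : algebraMap (Rp 2) LL PowerSeries.X ≠ 0 := by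
    rw [Ne, map_eq_zero_iff _ inj_RL]
    exact X_ne
  have hfree : Module.Free (Rp 2) (integralClosure (Rp 2) E) := by
    apply free_of
    intro u v huv
    have h1 := congrArg φ huv
    rw [map_add, map_smul, map_smul, map_zero] at h1
    have h2 : 2 ^ 1 * φ u = xx ^ 1 * (-φ v) := by
      rw [pow_one, pow_one, mul_neg, eq_neg_iff_add_eq_zero]
      rw [Algebra.smul_def, Algebra.smul_def, map_ofNat] at h1
      exact h1
    obtain ⟨D, hD⟩ := hR 1 (φ u) (-φ v) h2
    rw [pow_one] at hD
    have hDE : (D : LL) ∈ E := by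
      have h3 : (φ u : LL) = algebraMap (Rp 2) LL PowerSeries.X * (D : LL) :=
        congrArg (fun z : Rplus 2 => (z : LL)) hD
      have h4 : (D : LL) = (algebraMap (Rp 2) LL PowerSeries.X)⁻¹ * (φ u : LL) := by
        rw [h3, ← mul_assoc, inv_mul_cancel₀ hXL, one_mul]
      rw [h4]
      refine E.mul_mem (E.inv_mem ?_) ?_
      · rw [IsScalarTower.algebraMap_apply (Rp 2) KK LL]
        exact E.algebraMap_mem _
      · exact (u : E).2
    obtain ⟨d, hd⟩ := hlift D hDE
    refine ⟨d, ?_, ?_⟩
    · apply hφi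
      rw [map_smul, hd, hD, Algebra.smul_def]
    · apply hφi
      rw [map_neg, map_smul, hd]
      have h5 : xx * (φ v + (2 : Rp 2) • D) = 0 := by
        rw [Algebra.smul_def, map_ofNat, mul_add]
        rw [Algebra.smul_def, Algebra.smul_def, map_ofNat, hD] at h1
        linear_combination h1
      have hxx : (xx : Rplus 2) ≠ 0 := by
        intro h0
        apply hXL
        exact congrArg (fun z : Rplus 2 => (z : LL)) h0
      have h6 := (mul_eq_zero.mp h5).resolve_left hxx
      exact eq_neg_of_add_eq_zero_left h6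
  have hflat : Module.Flat (Rp 2) (integralClosure (Rp 2) E) := inferInstance
  have hs : ∀ i, ∃ s, φ s = x i := fun i =>
    hlift (x i) (IntermediateField.subset_adjoin KK _ ⟨i, rfl⟩)
  choose s hs using hs
  have hrel : ∑ i, f i • s i = 0 := by
    apply hφi
    rw [map_sum, map_zero, ← hx]
    exact Finset.sum_congr rfl fun i _ => by rw [map_smul, hs]
  obtain ⟨k, a, y, h1, h2⟩ := Module.Flat.isTrivialRelation_of_sum_smul_eq_zero hrel
  refine ⟨k, a, fun j => φ (y j), fun i => ?_, h2⟩
  rw [← hs i, h1 i, map_sum]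
  exact Finset.sum_congr rfl fun j _ => by rw [map_smul]

end

end Pool.Agent.R743.PP
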