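import Pool.Agent.R743.PP.Stm

/-! PP-FPT: the F-pure threshold of `x⁴ + y⁴` in characteristic two is `1/4` -/

set_option autoImplicit false

open Filter Topology

namespace Pool.Agent.R743.PP

namespace FptAux

theorem not_mem {e r : ℕ} (h : 4 * r < 2 ^ e) : f0 2 4 4 ^ r ∉
    (Ideal.span {MvPowerSeries.X 0 ^ (2 ^ e), MvPowerSeries.X 1 ^ (2 ^ e)} :
      Ideal (MvPowerSeries (Fin 2) (ZMod 2))) := by
  classical
  intro hmem
  obtain ⟨a, b, hab⟩ := Ideal.mem_span_pair.1 hmem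
  have h1 : MvPowerSeries.coeff (Finsupp.single 0 (4 * r)) (f0 2 4 4 ^ r) = (0 : ZMod 2) := by
    rw [← hab, map_add]
    have c1 : MvPowerSeries.coeff (Finsupp.single 0 (4 * r))
        (a * MvPowerSeries.X 0 ^ (2 ^ e)) = (0 : ZMod 2) := by
      refine (MvPowerSeries.X_pow_dvd_iff.1 (Dvd.intro_left a rfl)) _ ?_
      simpa using h
    have c2 : MvPowerSeries.coeff (Finsupp.single 0 (4 * r))
        (b * MvPowerSeries.X 1 ^ (2 ^ e)) = (0 : ZMod 2) := by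
      refine (MvPowerSeries.X_pow_dvd_iff.1 (Dvd.intro_left b rfl)) _ ?_
      simp
    rw [c1, c2, add_zero]
  have h2 : MvPowerSeries.coeff (Finsupp.single 0 (4 * r)) (f0 2 4 4 ^ r) = (1 : ZMod 2) := by
    have d1 : (MvPowerSeries.X 1 : MvPowerSeries (Fin 2) (ZMod 2)) ^ 1 ∣
        f0 2 4 4 ^ r - (MvPowerSeries.X 0 ^ 4) ^ r := by
      refine dvd_trans ?_ (sub_dvd_pow_sub_pow (f0 2 4 4) (MvPowerSeries.X 0 ^ 4) r)
      unfold f0
      rw [add_sub_cancel_right]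
      exact pow_dvd_pow _ (by norm_num)
    have d2 := MvPowerSeries.X_pow_dvd_iff.1 d1 (Finsupp.single 0 (4 * r)) (by simp)
    rw [map_sub, sub_eq_zero] at d2
    rw [d2, ← pow_mul, MvPowerSeries.coeff_X_pow, if_pos rfl]
  rw [h1] at h2
  exact zero_ne_one h2

theorem mem_pair (A B : MvPowerSeries (Fin 2) (ZMod 2)) (d : MvPowerSeries (Fin 2) (ZMod 2)) :
    (B + A) * d ∈ Ideal.span {A, B} :=
  Ideal.mem_span_pair.2 ⟨d, d, by ring⟩

theorem two_zero : (2 : MvPowerSeries (Fin 2) (ZMod 2)) = 0 := by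
  have h1 : (2 : ZMod 2) = 0 := by decide
  have h2 := congrArg (MvPowerSeries.C (σ := Fin 2) (R := ZMod 2)) h1
  rw [map_ofNat, map_zero] at h2
  exact h2

theorem frob (A B : MvPowerSeries (Fin 2) (ZMod 2)) (e : ℕ) :
    (A + B) ^ 2 ^ e = A ^ 2 ^ e + B ^ 2 ^ e := by
  induction e with
  | zero => simp
  | succ e ih =>
    rw [pow_succ, pow_mul, pow_mul, pow_mul, ih]
    linear_combination (A ^ 2 ^ e * B ^ 2 ^ e) * two_zero

theorem mem {e r : ℕ} (h : 2 ^ (e + 2) ≤ 4 * r) : f0 2 4 4 ^ r ∈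
    (Ideal.span {MvPowerSeries.X 0 ^ (2 ^ (e + 2)), MvPowerSeries.X 1 ^ (2 ^ (e + 2))} :
      Ideal (MvPowerSeries (Fin 2) (ZMod 2))) := by
  have h1 : 2 ^ e ≤ r := by
    have : 2 ^ (e + 2) = 4 * 2 ^ e := by ring
    omega
  obtain ⟨d, rfl⟩ := Nat.exists_eq_add_of_le h1
  have h3 : 2 ^ (e + 2) = 4 * 2 ^ e := by ring
  rw [h3, pow_add, pow_mul, pow_mul]
  have h2 : f0 2 4 4 ^ 2 ^ e = (MvPowerSeries.X 1 ^ 4) ^ 2 ^ e +
      (MvPowerSeries.X 0 ^ 4) ^ 2 ^ e := frob _ _ e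
  rw [h2]
  exact mem_pair _ _ _

theorem nu_eq (e : ℕ) : nu 2 4 4 (e + 2) = 2 ^ e - 1 := by
  unfold nu
  apply IsGreatest.csSup_eq
  have hpos : 0 < 2 ^ e := by positivity
  constructor
  · apply not_mem
    have : 2 ^ (e + 2) = 4 * 2 ^ e := by ring
    omega
  · intro r hr
    by_contra hcon
    apply hr
    apply mem
    have : 2 ^ (e + 2) = 4 * 2 ^ e := by ring
    omega

end FptAux

open FptAux in
theorem fptlim : S_FPT := by
  unfold S_FPT
  rw [← tendsto_add_atTop_iff_nat 2]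
  have h1 : ∀ e : ℕ, (nu 2 4 4 (e + 2) : ℝ) / (2 : ℝ) ^ (e + 2) = 1 / 4 - 1 / 4 * (1 / 2) ^ e := by
    intro e
    rw [nu_eq, Nat.cast_sub Nat.one_le_two_pow]
    push_cast
    rw [one_div_pow]
    have : (2 : ℝ) ^ e ≠ 0 := by positivity
    field_simp
    ring
  simp only [h1]
  have h2 : Tendsto (fun e : ℕ => (1 : ℝ) / 4 - 1 / 4 * (1 / 2) ^ e) atTop
      (𝓝 (1 / 4 - 1 / 4 * 0)) :=
    tendsto_const_nhds.sub ((tendsto_pow_atTop_nhds_zero_of_lt_one (by norm_num)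
      (by norm_num)).const_mul _)
  simpa using h2

end Pool.Agent.R743.PP
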