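import Pool.Agent.R743.PP.Stm

/-!
PP-IC (MP_f54cc4_ag): `R⁺` is integrally closed, quadratic equations have roots, and `(2, x) R⁺` is
proper.
-/

set_option autoImplicit false

open Filter Topology TensorProduct

namespace Pool.Agent.R743.PP

namespace Ic

open Polynomial in
lemma int_trans (x : AlgebraicClosure (FractionRing (Rp 2))) (h : IsIntegral (Rplus 2) x) :
    ∃ y : Rplus 2, (y : AlgebraicClosure (FractionRing (Rp 2))) = x := by
  have h1 : IsIntegral (Rp 2) x := isIntegral_trans x h
  exact ⟨⟨x, h1⟩, rfl⟩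

lemma inj (x : Rp 2) (h : algebraMap (Rp 2) (AlgebraicClosure (FractionRing (Rp 2))) x = 0) :
    x = 0 := by
  rw [IsScalarTower.algebraMap_apply (Rp 2) (FractionRing (Rp 2))
    (AlgebraicClosure (FractionRing (Rp 2)))] at h
  have h1 : algebraMap (Rp 2) (FractionRing (Rp 2)) x = 0 := by
    have := (algebraMap (FractionRing (Rp 2))
      (AlgebraicClosure (FractionRing (Rp 2)))).injective
    exact this (by rw [h, map_zero])
  have h2 := IsFractionRing.injective (Rp 2) (FractionRing (Rp 2))
  exact h2 (by rw [h1, map_zero])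

lemma alg : Algebra.IsAlgebraic (Rp 2) (AlgebraicClosure (FractionRing (Rp 2))) := by
  have h := (IsFractionRing.comap_isAlgebraic_iff (A := Rp 2) (K := FractionRing (Rp 2))
    (C := AlgebraicClosure (FractionRing (Rp 2)))).2 inferInstance
  exact h

lemma ic1 : IsIntegrallyClosed (Rplus 2) := by
  have := alg
  have hfr : IsFractionRing (Rplus 2) (AlgebraicClosure (FractionRing (Rp 2))) :=
    integralClosure.isFractionRing_of_algebraic (A := Rp 2)
      (L := AlgebraicClosure (FractionRing (Rp 2))) inj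
  rw [isIntegrallyClosed_iff (AlgebraicClosure (FractionRing (Rp 2)))]
  intro x hx
  obtain ⟨y, hy⟩ := int_trans x hx
  exact ⟨y, hy⟩

open Polynomial in
lemma ic2 (p q : Rplus 2) : ∃ h : Rplus 2, h ^ 2 + p * h + q = 0 := by
  set L := AlgebraicClosure (FractionRing (Rp 2)) with hL
  set P : L[X] := X ^ 2 + C (p : L) * X + C (q : L) with hP
  have hdeg : P.degree ≠ 0 := by
    have h2 : P.natDegree = 2 := by
      rw [hP]
      compute_degree!
    intro h0
    have h3 : P.natDegree = 0 := natDegree_eq_of_degree_eq_some h0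
    rw [h2] at h3
    exact absurd h3 (by norm_num)
  obtain ⟨h, hh⟩ := IsAlgClosed.exists_root P hdeg
  have hroot : h ^ 2 + (p : L) * h + (q : L) = 0 := by
    have := hh
    rw [hP, IsRoot.def] at this
    simpa using this
  have hint : IsIntegral (Rplus 2) h := by
    refine ⟨X ^ 2 + C p * X + C q, ?_, ?_⟩
    · monicity!
    · rw [eval₂_add, eval₂_add, eval₂_pow, eval₂_mul, eval₂_X, eval₂_C, eval₂_C]
      exact hroot
  obtain ⟨y, hy⟩ := int_trans h hint
  refine ⟨y, ?_⟩
  apply Subtype.ext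
  push_cast
  rw [hy]
  exact hroot

lemma two_nonunit : ¬ IsUnit (2 : Rp 2) := by
  intro h
  have h1 := h.map (PowerSeries.constantCoeff (R := ℤ_[2]))
  rw [map_ofNat] at h1
  have h2 := PadicInt.p_nonunit (p := 2)
  apply h2
  exact_mod_cast h1

lemma X_nonunit : ¬ IsUnit (PowerSeries.X : Rp 2) := by
  intro h
  have h1 := h.map (PowerSeries.constantCoeff (R := ℤ_[2]))
  rw [PowerSeries.constantCoeff_X] at h1
  exact not_isUnit_zero h1

lemma ic3 : (1 : Rplus 2) ∉ Ideal.span {2, xx} := by
  intro h1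
  have hker : RingHom.ker (algebraMap (Rp 2) (Rplus 2)) ≤ IsLocalRing.maximalIdeal (Rp 2) := by
    intro x hx
    have h0 : algebraMap (Rp 2) (Rplus 2) x = 0 := hx
    have h2 : x = 0 := by
      apply inj
      have := congrArg (fun y : Rplus 2 => (y : AlgebraicClosure (FractionRing (Rp 2)))) h0
      exact this
    rw [h2]
    exact zero_mem _
  have hint : Algebra.IsIntegral (Rp 2) (Rplus 2) := inferInstance
  obtain ⟨Q, hQ1, hQ2⟩ := Ideal.exists_ideal_over_maximal_of_isIntegral
    (S := Rplus 2) (IsLocalRing.maximalIdeal (Rp 2)) hker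
  have hx : xx ∈ Q := by
    have : (PowerSeries.X : Rp 2) ∈ Q.comap (algebraMap (Rp 2) (Rplus 2)) := by
      rw [hQ2]
      exact (IsLocalRing.mem_maximalIdeal _).2 X_nonunit
    exact this
  have h2 : (2 : Rplus 2) ∈ Q := by
    have : (2 : Rp 2) ∈ Q.comap (algebraMap (Rp 2) (Rplus 2)) := by
      rw [hQ2]
      exact (IsLocalRing.mem_maximalIdeal _).2 two_nonunit
    have h3 : algebraMap (Rp 2) (Rplus 2) 2 ∈ Q := this
    rwa [map_ofNat] at h3
  have hle : Ideal.span {2, xx} ≤ Q := by
    rw [Ideal.span_le]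
    rintro y (rfl | rfl)
    · exact h2
    · exact hx
  exact hQ1.ne_top ((Ideal.eq_top_iff_one _).2 (hle h1))

end Ic

theorem ic : S_IC := ⟨Ic.ic1, Ic.ic2, Ic.ic3⟩

end Pool.Agent.R743.PP
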