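import Pool.Agent.R743.PP.Stm

/-! PP-PURE: the criterion for purity -/

set_option autoImplicit false

open TensorProduct

namespace Pool.Agent.R743.PP

namespace PureAux

variable {R : Type} [CommRing R] {S : Type} [CommRing S] [Algebra R S]

theorem tmul_eq_zero_iff (J : Ideal R) (g : S) :
    g ⊗ₜ[R] (Ideal.Quotient.mk J 1) = 0 ↔ g ∈ J.map (algebraMap R S) := by
  have e1 : (tensorQuotEquivQuotSMul S J) (g ⊗ₜ[R] (Ideal.Quotient.mk J 1)) =
      Submodule.Quotient.mk g := by
    unfold tensorQuotEquivQuotSMul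
    rw [LinearEquiv.trans_apply, TensorProduct.comm_tmul, quotTensorEquivQuotSMul_mk_tmul,
      one_smul]
  rw [← (tensorQuotEquivQuotSMul S J).map_eq_zero_iff, e1, Submodule.Quotient.mk_eq_zero,
    Ideal.smul_top_eq_map, Submodule.restrictScalars_mem]

theorem pure_gen [Module.Flat R S] (m : Ideal R) (h1 : ∀ J : Ideal R, J ≠ ⊤ → J ≤ m)
    (h2 : m ≠ ⊤) (g : S) :
    IsPureMap (LinearMap.toSpanSingleton R S g) ↔ g ∉ m.map (algebraMap R S) := by
  constructor
  · intro hp hg
    have h3 := hp (R ⧸ m)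
    have h4 : (LinearMap.toSpanSingleton R S g).rTensor (R ⧸ m)
        ((1 : R) ⊗ₜ[R] (Ideal.Quotient.mk m 1)) = 0 := by
      rw [LinearMap.rTensor_tmul, LinearMap.toSpanSingleton_apply, one_smul]
      exact (tmul_eq_zero_iff m g).2 hg
    have h5 : (1 : R) ⊗ₜ[R] (Ideal.Quotient.mk m 1) = 0 := by
      apply h3
      rw [h4, map_zero]
    have h6 := (tmul_eq_zero_iff (S := R) m (1 : R)).1 h5
    rw [Algebra.algebraMap_self, Ideal.map_id] at h6
    exact h2 ((Ideal.eq_top_iff_one m).2 h6)
  · intro hg N _ _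
    rw [injective_iff_map_eq_zero]
    intro t ht
    obtain ⟨n, rfl⟩ := (TensorProduct.lid R N).symm.surjective t
    rw [TensorProduct.lid_symm_apply] at ht ⊢
    rw [LinearMap.rTensor_tmul, LinearMap.toSpanSingleton_apply, one_smul] at ht
    by_contra hne
    have hn : n ≠ 0 := by
      rintro rfl
      exact hne (tmul_zero _ _)
    set f := LinearMap.toSpanSingleton R N n with hf
    set J : Ideal R := LinearMap.ker f with hJ
    have hJt : J ≠ ⊤ := by
      intro h
      have h3 : (1 : R) ∈ J := by rw [h]; trivial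
      rw [hJ, LinearMap.mem_ker, hf, LinearMap.toSpanSingleton_apply, one_smul] at h3
      exact hn h3
    let ι : (R ⧸ J) →ₗ[R] N := Submodule.liftQ J f le_rfl
    have hι : Function.Injective ι := by
      rw [← LinearMap.ker_eq_bot]
      exact Submodule.ker_liftQ_eq_bot _ _ _ le_rfl
    have hinj := Module.Flat.lTensor_preserves_injective_linearMap (M := S) ι hι
    have h3 : g ⊗ₜ[R] (Ideal.Quotient.mk J 1) = 0 := by
      apply hinj
      rw [map_zero, LinearMap.lTensor_tmul]
      have h4 : ι (Ideal.Quotient.mk J 1) = n := by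
        change f 1 = n
        rw [hf, LinearMap.toSpanSingleton_apply, one_smul]
      rw [h4]
      exact ht
    exact hg (Ideal.map_mono (h1 J hJt) ((tmul_eq_zero_iff J g).1 h3))

theorem proper_le (J : Ideal (Rp 2)) (hJ : J ≠ ⊤) : J ≤ Ideal.span {2, PowerSeries.X} := by
  intro f hf
  have h1 : ¬ IsUnit f := fun h => hJ (Ideal.eq_top_of_isUnit_mem J hf h)
  rw [PowerSeries.isUnit_iff_constantCoeff] at h1
  have h2 : (2 : ℤ_[2]) ∣ PowerSeries.constantCoeff f := by
    have h3 : ‖PowerSeries.constantCoeff f‖ < 1 := by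
      rw [PadicInt.isUnit_iff] at h1
      exact lt_of_le_of_ne (PadicInt.norm_le_one _) h1
    have h4 := PadicInt.norm_lt_one_iff_dvd _ |>.1 h3
    exact_mod_cast h4
  obtain ⟨c, hc⟩ := h2
  have h5 : (PowerSeries.X : Rp 2) ∣ f - PowerSeries.C (PowerSeries.constantCoeff f) := by
    rw [PowerSeries.X_dvd_iff]
    simp
  obtain ⟨d, hd⟩ := h5
  refine Ideal.mem_span_pair.2 ⟨PowerSeries.C c, d, ?_⟩
  have h6 : PowerSeries.C (PowerSeries.constantCoeff f) = (2 : Rp 2) * PowerSeries.C c := by
    rw [hc, map_mul, map_ofNat]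
  linear_combination -hd - h6

theorem proper : (Ideal.span {2, PowerSeries.X} : Ideal (Rp 2)) ≠ ⊤ := by
  intro h
  let π : Rp 2 →+* ZMod 2 := (PadicInt.toZMod (p := 2)).comp PowerSeries.constantCoeff
  have h1 : (Ideal.span {2, PowerSeries.X} : Ideal (Rp 2)) ≤ RingHom.ker π := by
    rw [Ideal.span_le]
    intro y hy
    rcases hy with hy | hy
    · rw [hy]
      change π 2 = 0
      rw [map_ofNat]
      decide
    · rw [Set.mem_singleton_iff.1 hy]
      change π PowerSeries.X = 0
      simp [π]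
  rw [h] at h1
  have h2 : π 1 = 0 := h1 (Submodule.mem_top)
  rw [map_one] at h2
  exact one_ne_zero h2

end PureAux

open PureAux in
theorem pure (hF : S_FLAT) : S_PURE := by
  intro g
  haveI : Module.Flat (Rp 2) (Rplus 2) := hF
  have h := pure_gen (R := Rp 2) (S := Rplus 2) (Ideal.span {2, PowerSeries.X}) proper_le proper g
  have e : (Ideal.span {2, PowerSeries.X} : Ideal (Rp 2)).map (algebraMap (Rp 2) (Rplus 2)) =
      Ideal.span {2, xx} := by
    rw [Ideal.map_span, Set.image_pair, map_ofNat]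
  rw [e] at h
  exact h

end Pool.Agent.R743.PP
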