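import Pool.Agent.R743.PP.Stm

/-! PP-REG: `2, x` is a regular sequence on `R⁺`. -/

set_option autoImplicit false

open Polynomial

namespace Pool.Agent.R743.PP

noncomputable section

abbrev KK : Type := FractionRing (Rp 2)
abbrev LL : Type := AlgebraicClosure KK

theorem inj_RK : Function.Injective (algebraMap (Rp 2) KK) := IsFractionRing.injective _ _

theorem inj_RL : Function.Injective (algebraMap (Rp 2) LL) := by
  rw [IsScalarTower.algebraMap_eq (Rp 2) KK LL]
  exact (algebraMap KK LL).injective.comp inj_RK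

theorem two_ne : (2 : Rp 2) ≠ 0 := by
  have h : (2 : Rp 2) = PowerSeries.C (2 : ℤ_[2]) := (map_ofNat PowerSeries.C 2).symm
  rw [h]
  intro h0
  have := congrArg (PowerSeries.constantCoeff) h0
  simp at this

theorem X_ne : (PowerSeries.X : Rp 2) ≠ 0 := PowerSeries.X_ne_zero

theorem coeff_two_pow (k j : ℕ) (b : Rp 2) :
    PowerSeries.coeff j ((2 : Rp 2) ^ k * b) = (2 : ℤ_[2]) ^ k * PowerSeries.coeff j b := by
  have h : (2 : Rp 2) ^ k = PowerSeries.C ((2 : ℤ_[2]) ^ k) := by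
    rw [map_pow]
    exact congrArg (· ^ k) (map_ofNat PowerSeries.C 2).symm
  rw [h, PowerSeries.coeff_C_mul]

theorem reg_R (k : ℕ) (a b : Rp 2) (h : PowerSeries.X ^ k * a = 2 ^ k * b) :
    ∃ a' : Rp 2, a = 2 ^ k * a' := by
  refine ⟨PowerSeries.mk fun j => PowerSeries.coeff (j + k) b, ?_⟩
  ext j
  rw [coeff_two_pow, PowerSeries.coeff_mk, ← coeff_two_pow, ← h, mul_comm,
    PowerSeries.coeff_mul_X_pow]

theorem mem_R (k : ℕ) (c : KK) (a b : Rp 2) (h1 : (algebraMap (Rp 2) KK 2) ^ k * c = algebraMap _ _ a)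
    (h2 : (algebraMap (Rp 2) KK PowerSeries.X) ^ k * c = algebraMap _ _ b) :
    ∃ r : Rp 2, algebraMap (Rp 2) KK r = c := by
  have h3 : PowerSeries.X ^ k * a = 2 ^ k * b := by
    apply inj_RK
    rw [map_mul, map_mul, map_pow, map_pow, ← h1, ← h2]
    ring
  obtain ⟨a', rfl⟩ := reg_R k a b h3
  refine ⟨a', ?_⟩
  have h4 : (algebraMap (Rp 2) KK 2) ^ k ≠ 0 :=
    pow_ne_zero _ (by rw [Ne, map_eq_zero_iff _ inj_RK]; exact two_ne)
  rw [map_mul, map_pow] at h1
  exact (mul_left_cancel₀ h4 h1).symm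

theorem minpoly_scale (q : LL) (s : KK) (hs : s ≠ 0) :
    minpoly KK (algebraMap KK LL s * q) = (minpoly KK q).scaleRoots s := by
  have hint : ∀ y : LL, IsIntegral KK y := fun y => Algebra.IsIntegral.isIntegral y
  have key : ∀ (y : LL) (t : KK), minpoly KK (algebraMap KK LL t * y) ∣ (minpoly KK y).scaleRoots t := by
    intro y t
    apply minpoly.dvd
    exact scaleRoots_aeval_eq_zero (minpoly.aeval KK y)
  have hd : (minpoly KK q).natDegree ≤ (minpoly KK (algebraMap KK LL s * q)).natDegree := by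
    have h1 := key (algebraMap KK LL s * q) s⁻¹
    have e : algebraMap KK LL s⁻¹ * (algebraMap KK LL s * q) = q := by
      rw [← mul_assoc, ← map_mul, inv_mul_cancel₀ hs, map_one, one_mul]
    rw [e] at h1
    have h2 := natDegree_le_of_dvd h1 (by
      rw [Ne, ← leadingCoeff_eq_zero]
      have : ((minpoly KK (algebraMap KK LL s * q)).scaleRoots s⁻¹).Monic :=
        (monic_scaleRoots_iff _).mpr (minpoly.monic (hint _))
      rw [this.leadingCoeff]
      exact one_ne_zero)
    rwa [natDegree_scaleRoots] at h2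
  refine (Polynomial.eq_of_monic_of_dvd_of_natDegree_le (minpoly.monic (hint _))
    ((monic_scaleRoots_iff _).mpr (minpoly.monic (hint _))) (key q s) ?_).symm
  rwa [natDegree_scaleRoots]

theorem coeff_mem (q : LL) (s : Rp 2) (hs : s ≠ 0) (h : IsIntegral (Rp 2) (algebraMap (Rp 2) LL s * q))
    (i : ℕ) : ∃ a : Rp 2, algebraMap (Rp 2) KK a =
      (minpoly KK q).coeff i * (algebraMap (Rp 2) KK s) ^ ((minpoly KK q).natDegree - i) := by
  have h1 := minpoly.isIntegrallyClosed_eq_field_fractions' KK h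
  have hs' : algebraMap (Rp 2) KK s ≠ 0 := by rw [Ne, map_eq_zero_iff _ inj_RK]; exact hs
  have h2 := minpoly_scale q (algebraMap (Rp 2) KK s) hs'
  rw [← IsScalarTower.algebraMap_apply (Rp 2) KK LL] at h2
  rw [h1] at h2
  refine ⟨(minpoly (Rp 2) (algebraMap (Rp 2) LL s * q)).coeff i, ?_⟩
  have h3 := congrArg (fun p => p.coeff i) h2
  simp only [coeff_map, coeff_scaleRoots] at h3
  exact h3

theorem integral_of_two (q : LL) (N : ℕ) (h1 : IsIntegral (Rp 2) (algebraMap (Rp 2) LL (2 ^ N) * q))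
    (h2 : IsIntegral (Rp 2) (algebraMap (Rp 2) LL (PowerSeries.X ^ N) * q)) : IsIntegral (Rp 2) q := by
  have hint : IsIntegral KK q := Algebra.IsIntegral.isIntegral q
  have hl : minpoly KK q ∈ Polynomial.lifts (algebraMap (Rp 2) KK) := by
    rw [Polynomial.lifts_iff_coeff_lifts]
    intro i
    obtain ⟨a, ha⟩ := coeff_mem q (2 ^ N) (pow_ne_zero _ two_ne) h1 i
    obtain ⟨b, hb⟩ := coeff_mem q (PowerSeries.X ^ N) (pow_ne_zero _ X_ne) h2 i
    obtain ⟨r, hr⟩ := mem_R (N * ((minpoly KK q).natDegree - i)) ((minpoly KK q).coeff i) a b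
      (by rw [ha, map_pow, pow_mul, mul_comm]) (by rw [hb, map_pow, pow_mul, mul_comm])
    exact ⟨r, hr⟩
  obtain ⟨p, hp1, _, hp3⟩ := Polynomial.lifts_and_natDegree_eq_and_monic hl (minpoly.monic hint)
  refine ⟨p, hp3, ?_⟩
  have h3 := minpoly.aeval KK q
  rw [← hp1, Polynomial.aeval_map_algebraMap] at h3
  rw [← Polynomial.aeval_def]
  exact h3

theorem reg : S_REG := by
  intro N A C h
  have hX : algebraMap (Rp 2) LL (PowerSeries.X ^ N) ≠ 0 := by
    rw [Ne, map_eq_zero_iff _ inj_RL]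
    exact pow_ne_zero _ X_ne
  have hL : algebraMap (Rp 2) LL (2 ^ N) * (A : LL) = algebraMap (Rp 2) LL (PowerSeries.X ^ N) * (C : LL) := by
    have h2 := congrArg (fun z : Rplus 2 => (z : LL)) h
    have e3 : ((2 ^ N * A : Rplus 2) : LL) = algebraMap (Rp 2) LL (2 ^ N) * (A : LL) := by
      rw [map_pow, map_ofNat]
      rfl
    have e4 : ((xx ^ N * C : Rplus 2) : LL) = algebraMap (Rp 2) LL (PowerSeries.X ^ N) * (C : LL) := by
      rw [map_pow]
      rfl
    rw [← e3, ← e4]
    exact h2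
  set q : LL := (A : LL) / algebraMap (Rp 2) LL (PowerSeries.X ^ N) with hq
  have e1 : algebraMap (Rp 2) LL (PowerSeries.X ^ N) * q = (A : LL) := by
    rw [hq]
    field_simp
  have e2 : algebraMap (Rp 2) LL (2 ^ N) * q = (C : LL) := by
    rw [hq, ← mul_div_assoc, hL]
    field_simp
  have hqi : IsIntegral (Rp 2) q := by
    apply integral_of_two q N
    · rw [e2]; exact C.2
    · rw [e1]; exact A.2
  refine ⟨⟨q, hqi⟩, ?_⟩
  apply Subtype.ext
  have : ((xx ^ N * ⟨q, hqi⟩ : Rplus 2) : LL) = algebraMap (Rp 2) LL (PowerSeries.X ^ N) * q := by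
    rw [map_pow]
    rfl
  rw [this, e1]

end

end Pool.Agent.R743.PP
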