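import Mathlib

/-!
The differential ring of smooth functions on an open subset of `ℝ⁴`.
-/

open scoped ContDiff

namespace Pool.Agent.R743.PP

/-- Coordinate space. -/
abbrev E4 : Type := Fin 4 → ℝ

/-- The `i`-th partial derivative. -/
noncomputable def pd (i : Fin 4) (f : E4 → ℝ) (x : E4) : ℝ := fderiv ℝ f x (Pi.single i 1)

/-- Extension by zero. -/
noncomputable def ext {U : TopologicalSpace.Opens E4} (f : U → ℝ) : E4 → ℝ :=
  Function.extend Subtype.val f 0

variable {U : TopologicalSpace.Opens E4}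

theorem ext_apply (f : U → ℝ) (x : U) : ext f x = f x :=
  Function.Injective.extend_apply Subtype.val_injective f 0 x

theorem ext_of_notMem (f : U → ℝ) {x : E4} (hx : x ∉ U) : ext f x = 0 := by
  unfold ext
  rw [Function.extend_apply']
  · rfl
  · rintro ⟨a, rfl⟩
    exact hx a.2

theorem ext_eqOn {f : U → ℝ} {h : E4 → ℝ} (hf : ∀ x : U, f x = h x) :
    Set.EqOn (ext f) h U := by
  intro x hx
  exact (ext_apply f ⟨x, hx⟩).trans (hf ⟨x, hx⟩)

/-- Smooth functions on `U`. -/
def Sm (U : TopologicalSpace.Opens E4) : Subalgebra ℝ (U → ℝ) where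
  carrier := {f | ContDiffOn ℝ ∞ (ext f) U}
  mul_mem' := by
    intro f g hf hg
    refine (ContDiffOn.mul hf hg).congr ?_
    exact ext_eqOn (fun x => by simp [ext_apply])
  add_mem' := by
    intro f g hf hg
    refine (ContDiffOn.add hf hg).congr ?_
    exact ext_eqOn (fun x => by simp [ext_apply])
  algebraMap_mem' := by
    intro r
    refine (contDiffOn_const (c := r)).congr ?_
    exact ext_eqOn (fun x => by simp)

theorem mem_Sm {f : U → ℝ} : f ∈ Sm U ↔ ContDiffOn ℝ ∞ (ext f) U := Iff.rfl

/-- A smooth function on `U` from a function on the whole space. -/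
def mk (U : TopologicalSpace.Opens E4) (h : E4 → ℝ) (hh : ContDiffOn ℝ ∞ h U) : Sm U :=
  ⟨fun x => h x, mem_Sm.2 (hh.congr (ext_eqOn (fun _ => rfl)))⟩

theorem mk_apply (h : E4 → ℝ) (hh : ContDiffOn ℝ ∞ h U) (x : U) : (mk U h hh).1 x = h x := rfl

theorem ext_mk_eventuallyEq (h : E4 → ℝ) (hh : ContDiffOn ℝ ∞ h U) (x : U) :
    ext (mk U h hh).1 =ᶠ[nhds (x : E4)] h :=
  (ext_eqOn (fun _ => rfl)).eventuallyEq_of_mem (U.isOpen.mem_nhds x.2)

theorem contDiffOn_pd {h : E4 → ℝ} (hh : ContDiffOn ℝ ∞ h U) (i : Fin 4) :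
    ContDiffOn ℝ ∞ (pd i h) U := by
  have h1 : ContDiffOn ℝ ∞ (fderiv ℝ h) U :=
    hh.fderiv_of_isOpen U.isOpen (by simp)
  exact h1.clm_apply contDiffOn_const

theorem differentiableAt_of {h : E4 → ℝ} (hh : ContDiffOn ℝ ∞ h U) {x : E4} (hx : x ∈ U) :
    DifferentiableAt ℝ h x :=
  (hh.contDiffAt (U.isOpen.mem_nhds hx)).differentiableAt (by simp)

/-- The `i`-th partial derivative as a derivation of the ring of smooth functions on `U`. -/
noncomputable def Dv (U : TopologicalSpace.Opens E4) (i : Fin 4) : Derivation ℝ (Sm U) (Sm U) :=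
  Derivation.mk'
    { toFun := fun f => mk U (pd i (ext f.1)) (contDiffOn_pd f.2 i)
      map_add' := by
        intro f g
        apply Subtype.ext
        funext x
        change pd i (ext (f.1 + g.1)) x = pd i (ext f.1) x + pd i (ext g.1) x
        have h1 : ext (f.1 + g.1) = ext f.1 + ext g.1 := by
          funext y
          by_cases hy : y ∈ U
          · have := ext_apply (f.1 + g.1) ⟨y, hy⟩
            have h2 := ext_apply f.1 ⟨y, hy⟩
            have h3 := ext_apply g.1 ⟨y, hy⟩
            simp only [Pi.add_apply] at this ⊢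
            rw [this, h2, h3]
          · simp [ext_of_notMem _ hy]
        rw [h1]
        unfold pd
        rw [fderiv_add (differentiableAt_of f.2 x.2) (differentiableAt_of g.2 x.2)]
        rfl
      map_smul' := by
        intro c f
        apply Subtype.ext
        funext x
        change pd i (ext (c • f.1)) x = c • pd i (ext f.1) x
        have h1 : ext (c • f.1) = c • ext f.1 := by
          funext y
          by_cases hy : y ∈ U
          · have := ext_apply (c • f.1) ⟨y, hy⟩
            have h2 := ext_apply f.1 ⟨y, hy⟩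
            simp only [Pi.smul_apply] at this ⊢
            rw [this, h2]
          · simp [ext_of_notMem _ hy]
        rw [h1]
        unfold pd
        rw [fderiv_const_smul (differentiableAt_of f.2 x.2)]
        rfl }
    (by
      intro f g
      apply Subtype.ext
      funext x
      change pd i (ext (f.1 * g.1)) x = f.1 x * pd i (ext g.1) x + g.1 x * pd i (ext f.1) x
      have h1 : ext (f.1 * g.1) = ext f.1 * ext g.1 := by
        funext y
        by_cases hy : y ∈ U
        · have := ext_apply (f.1 * g.1) ⟨y, hy⟩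
          have h2 := ext_apply f.1 ⟨y, hy⟩
          have h3 := ext_apply g.1 ⟨y, hy⟩
          simp only [Pi.mul_apply] at this ⊢
          rw [this, h2, h3]
        · simp [ext_of_notMem _ hy]
      rw [h1]
      unfold pd
      rw [fderiv_mul (differentiableAt_of f.2 x.2) (differentiableAt_of g.2 x.2)]
      simp [ext_apply])

theorem Dv_apply (i : Fin 4) (f : Sm U) (x : U) : (Dv U i f).1 x = pd i (ext f.1) x := rfl

theorem Dv_mk (i : Fin 4) (h : E4 → ℝ) (hh : ContDiffOn ℝ ∞ h U) :
    Dv U i (mk U h hh) = mk U (pd i h) (contDiffOn_pd hh i) := by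
  apply Subtype.ext
  funext x
  change pd i (ext (mk U h hh).1) x = pd i h x
  unfold pd
  rw [(ext_mk_eventuallyEq h hh x).fderiv_eq]

theorem pd_pd {h : E4 → ℝ} (hh : ContDiffOn ℝ ∞ h U) {x : E4} (hx : x ∈ U) (i j : Fin 4) :
    pd i (pd j h) x = pd j (pd i h) x := by
  have h0 : ContDiffAt ℝ ∞ h x := hh.contDiffAt (U.isOpen.mem_nhds hx)
  have h1 : DifferentiableAt ℝ (fderiv ℝ h) x :=
    (h0.fderiv_right (m := ∞) (by simp)).differentiableAt (by simp)
  have key : ∀ a b : Fin 4, pd a (pd b h) x
      = fderiv ℝ (fderiv ℝ h) x (Pi.single a 1) (Pi.single b 1) := by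
    intro a b
    unfold pd
    rw [fderiv_clm_apply h1 (differentiableAt_const _)]
    simp
  rw [key, key]
  have hs : IsSymmSndFDerivAt ℝ h x := h0.isSymmSndFDerivAt
    (by simp only [minSmoothness_of_isRCLikeNormedField]; exact WithTop.coe_le_coe.2 le_top)
  exact hs _ _

theorem Dv_comm (i j : Fin 4) (f : Sm U) : Dv U i (Dv U j f) = Dv U j (Dv U i f) := by
  have h1 : ∀ a, Dv U a f = mk U (pd a (ext f.1)) (contDiffOn_pd f.2 a) := fun a => rfl
  rw [h1 i, h1 j, Dv_mk, Dv_mk]
  apply Subtype.ext
  funext x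
  exact pd_pd f.2 x.2 i j

/-- Evaluation at a point. -/
def ev (z : U) : Sm U →+* ℝ :=
  (Pi.evalRingHom (fun _ : U => ℝ) z).comp (Sm U).val.toRingHom

theorem ev_mk (z : U) (h : E4 → ℝ) (hh : ContDiffOn ℝ ∞ h U) : ev z (mk U h hh) = h z := rfl

theorem eq_of_ev {a b : Sm U} (h : ∀ z, ev z a = ev z b) : a = b := Subtype.ext (funext h)

end Pool.Agent.R743.PP
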