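import Mathlib

/-!
# Plus-pure thresholds (project PP, MP_f54cc4_ag): definitions and statements

For `p = 2`, `a = b = 4`: `fpt(y⁴ + x⁴) = 1/4 < 5/16 ≤ ppt(2⁴ + x⁴) ≤ 3/8 < 1/2`.  Proofs: `NOTES.md`.
-/

set_option autoImplicit false

open Filter Topology TensorProduct

namespace Pool.Agent.R743.PP

/-! ## General definitions -/

/-- the ring `ℤ_p[[x]]` -/
noncomputable abbrev Rp (p : ℕ) [Fact p.Prime] := PowerSeries ℤ_[p]

/-- the integral closure of `ℤ_p[[x]]` in an algebraic closure of its fraction field -/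
noncomputable abbrev Rplus (p : ℕ) [Fact p.Prime] := integralClosure (Rp p) (AlgebraicClosure (FractionRing (Rp p)))

/-- the element `p ^ a + x ^ b` -/
noncomputable def ff (p : ℕ) [Fact p.Prime] (a b : ℕ) : Rp p := (p : Rp p) ^ a + PowerSeries.X ^ b

/-- `φ` is pure: it stays injective after tensoring with any module -/
def IsPureMap {R M M' : Type} [CommRing R] [AddCommGroup M] [Module R M] [AddCommGroup M'] [Module R M']
    (φ : M →ₗ[R] M') : Prop :=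
  ∀ (N : Type) [AddCommGroup N] [Module R N], Function.Injective (φ.rTensor N)

/-- the rational numbers `n / m` such that the map `1 ↦ f ^ (n / m)` is pure -/
def PPset (p : ℕ) [Fact p.Prime] (a b : ℕ) : Set ℝ := {α | ∃ n m : ℕ, 0 < m ∧ α = (n : ℝ) / m ∧
  ∃ g : Rplus p, g ^ m = (algebraMap (Rp p) (Rplus p) (ff p a b)) ^ n ∧
    IsPureMap (LinearMap.toSpanSingleton (Rp p) (Rplus p) g)}

/-- the plus-pure threshold of `p ^ a + x ^ b` -/
noncomputable def ppt (p : ℕ) [Fact p.Prime] (a b : ℕ) : ℝ := sSup (PPset p a b)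

/-- the element `y ^ a + x ^ b` of `𝔽_p[[x, y]]` -/
noncomputable def f0 (p : ℕ) (a b : ℕ) : MvPowerSeries (Fin 2) (ZMod p) :=
  MvPowerSeries.X 1 ^ a + MvPowerSeries.X 0 ^ b

/-- `ν(p ^ e) = max {r : f₀ ^ r ∉ (x ^ (p ^ e), y ^ (p ^ e))}` -/
noncomputable def nu (p : ℕ) (a b e : ℕ) : ℕ := sSup {r : ℕ | f0 p a b ^ r ∉
  (Ideal.span {MvPowerSeries.X 0 ^ (p ^ e), MvPowerSeries.X 1 ^ (p ^ e)} :
    Ideal (MvPowerSeries (Fin 2) (ZMod p)))}

/-- the F-pure threshold of `y ^ a + x ^ b` -/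
noncomputable def fpt (p : ℕ) (a b : ℕ) : ℝ := limUnder atTop (fun e : ℕ => (nu p a b e : ℝ) / (p : ℝ) ^ e)

/-! ## Statements -/

/-- the variable in `R⁺` -/
noncomputable abbrev xx : Rplus 2 := algebraMap (Rp 2) (Rplus 2) PowerSeries.X

/-- PP-REG: `2, x` is a regular sequence on `R⁺` -/
def S_REG : Prop := ∀ (N : ℕ) (A C : Rplus 2), 2 ^ N * A = xx ^ N * C → xx ^ N ∣ A

/-- PP-IC: `R⁺` is integrally closed, quadratic equations have roots, and `(2, x) R⁺` is proper -/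
def S_IC : Prop := IsIntegrallyClosed (Rplus 2) ∧ (∀ p q : Rplus 2, ∃ h : Rplus 2, h ^ 2 + p * h + q = 0) ∧
  (1 : Rplus 2) ∉ Ideal.span {2, xx}

/-- PP-FLAT: `R⁺` is flat over `R = ℤ_2[[x]]` -/
def S_FLAT : Prop := Module.Flat (Rp 2) (Rplus 2)

/-- PP-PURE: criterion for purity -/
def S_PURE : Prop := ∀ g : Rplus 2,
  IsPureMap (LinearMap.toSpanSingleton (Rp 2) (Rplus 2) g) ↔ g ∉ Ideal.span {2, xx}

/-- PP-FPT -/
def S_FPT : Prop := Tendsto (fun e : ℕ => (nu 2 4 4 e : ℝ) / (2 : ℝ) ^ e) atTop (𝓝 (1 / 4))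

/-- PP-ABS: the computation in an abstract ring -/
def S_ABS : Prop := ∀ (B : Type) [CommRing B] [IsDomain B] [IsIntegrallyClosed B] (x : B), (2 : B) ≠ 0 → x ≠ 0 →
  (∀ p q : B, ∃ h : B, h ^ 2 + p * h + q = 0) →
  (∀ (N : ℕ) (A C : B), 2 ^ N * A = x ^ N * C → x ^ N ∣ A) →
  (1 : B) ∉ Ideal.span {2, x} →
  (∃ v : B, v ^ 8 = 16 + x ^ 4 ∧ v ^ 3 ∈ Ideal.span {2, x}) ∧
  (∃ v : B, v ^ 16 = 16 + x ^ 4 ∧ v ^ 5 ∉ Ideal.span {2, x})

end Pool.Agent.R743.PP
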