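import Pool.Agent.R743.PP.Stm

/-!
# Assembly of project PP (MP_f54cc4_ag)
-/

set_option autoImplicit false

open Filter Topology

namespace Pool.Agent.R743.PP.Top

theorem map_ff : algebraMap (Rp 2) (Rplus 2) (ff 2 4 4) = 16 + xx ^ 4 := by
  have h : algebraMap (Rp 2) (Rplus 2) (ff 2 4 4) = (2 : Rplus 2) ^ 4 + xx ^ 4 := by
    rw [ff, map_add, map_pow, map_pow, map_natCast, Nat.cast_ofNat]
  rw [h]
  norm_num

theorem inj : Function.Injective (algebraMap (Rp 2) (Rplus 2)) := by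
  have h : Function.Injective (algebraMap (Rp 2) (AlgebraicClosure (FractionRing (Rp 2)))) := by
    rw [IsScalarTower.algebraMap_eq (Rp 2) (FractionRing (Rp 2)) (AlgebraicClosure (FractionRing (Rp 2)))]
    exact (algebraMap (FractionRing (Rp 2)) _).injective.comp (IsFractionRing.injective _ _)
  intro a b hab
  apply h
  have := congrArg (algebraMap (Rplus 2) (AlgebraicClosure (FractionRing (Rp 2)))) hab
  rwa [← IsScalarTower.algebraMap_apply, ← IsScalarTower.algebraMap_apply] at this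

theorem two_ne : (2 : Rplus 2) ≠ 0 := by
  intro h
  have h1 : algebraMap (Rp 2) (Rplus 2) 2 = algebraMap (Rp 2) (Rplus 2) 0 := by
    rw [map_ofNat, h, map_zero]
  have h2 : (2 : Rp 2) = 0 := inj h1
  have h3 := congrArg PowerSeries.constantCoeff h2
  rw [map_ofNat, map_zero] at h3
  exact two_ne_zero h3

theorem xx_ne : xx ≠ 0 := by
  intro h
  have h1 : algebraMap (Rp 2) (Rplus 2) PowerSeries.X = algebraMap (Rp 2) (Rplus 2) 0 := by
    rw [map_zero]; exact h
  exact PowerSeries.X_ne_zero (inj h1)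

theorem main (hR : S_REG) (hI : S_IC) (hP : S_PURE) (hF : S_FPT) (hA : S_ABS) :
    fpt 2 4 4 = 1 / 4 ∧ (5 / 16 : ℝ) ∈ PPset 2 4 4 ∧ (∀ α ∈ PPset 2 4 4, α ≤ 3 / 8) := by
  obtain ⟨hic, hq, h1⟩ := hI
  obtain ⟨⟨v, hv, hv3⟩, ⟨v', hv', hv5⟩⟩ := hA (Rplus 2) xx two_ne xx_ne hq hR h1
  refine ⟨?_, ?_, ?_⟩
  · unfold fpt
    apply Tendsto.limUnder_eq
    have : ((2 : ℕ) : ℝ) = 2 := by norm_num
    rw [this]
    exact hF
  · refine ⟨5, 16, by norm_num, by norm_num, v' ^ 5, ?_, ?_⟩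
    · rw [map_ff, ← hv']
      ring
    · rw [hP]
      exact hv5
  · rintro α ⟨n, m, hm, rfl, g, hg, hpure⟩
    rw [hP] at hpure
    by_contra hlt
    push Not at hlt
    apply hpure
    have hm' : (0 : ℝ) < m := by exact_mod_cast hm
    rw [div_lt_div_iff₀ (by norm_num) hm'] at hlt
    have hlt' : 3 * m < n * 8 := by exact_mod_cast hlt
    obtain ⟨r, hr⟩ := Nat.exists_eq_add_of_le hlt'.le
    rw [map_ff] at hg
    have hd : (v ^ 3) ^ (8 * m) ∣ g ^ (8 * m) := by
      refine ⟨(16 + xx ^ 4) ^ r, ?_⟩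
      have e1 : (v ^ 3) ^ (8 * m) = (16 + xx ^ 4) ^ (3 * m) := by
        rw [← hv, ← pow_mul, ← pow_mul]
        congr 1
        ring
      have e2 : g ^ (8 * m) = (16 + xx ^ 4) ^ (n * 8) := by
        rw [mul_comm 8 m, pow_mul, hg, ← pow_mul]
      rw [e1, e2, hr, pow_add]
    rw [IsIntegrallyClosed.pow_dvd_pow_iff (by omega)] at hd
    exact Ideal.mem_of_dvd _ hd hv3

end Pool.Agent.R743.PP.Top
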